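import Pool.Agent.H56.FF.Defs
import Pool.Agent.H56.AS.Basic

/-! Directions of saddle connections of a compact affine surface. -/

namespace Pool.Agent.H56.FF

open Set Filter Topology
open Pool.Agent.H56.AS

variable {X : Type*} [TopologicalSpace X]

/-- composition of affine maps `z -> m z + b` -/
def acomp (g h : ℝ × ℂ) : ℝ × ℂ := (g.1 * h.1, (g.1 : ℂ) * h.2 + g.2)

/-- action -/
def aact (g : ℝ × ℂ) (z : ℂ) : ℂ := (g.1 : ℂ) * z + g.2

theorem aact_acomp (g h : ℝ × ℂ) (z : ℂ) : aact (acomp g h) z = aact g (aact h z) := by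
  simp only [aact, acomp]
  push_cast
  ring

/-- products of length `n` -/
def lamN (S : Set (ℝ × ℂ)) : ℕ → Set (ℝ × ℂ)
  | 0 => {(1, 0)}
  | n + 1 => image2 acomp (lamN S n) S

theorem lamN_countable {S : Set (ℝ × ℂ)} (hS : S.Countable) (n : ℕ) : (lamN S n).Countable := by
  induction n with
  | zero => exact countable_singleton _
  | succ n ih => exact ih.image2 hS acomp

theorem lamN_pos {S : Set (ℝ × ℂ)} (hS : ∀ g ∈ S, 0 < g.1) (n : ℕ) : ∀ g ∈ lamN S n, 0 < g.1 := by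
  induction n with
  | zero =>
    intro g hg
    rw [lamN, mem_singleton_iff] at hg
    rw [hg]; exact one_pos
  | succ n ih =>
    rintro _ ⟨g, hg, h, hh, rfl⟩
    exact mul_pos (ih g hg) (hS h hh)

/-- all products -/
def lam (S : Set (ℝ × ℂ)) : Set (ℝ × ℂ) := ⋃ n, lamN S n

theorem lam_mul {S : Set (ℝ × ℂ)} {g h : ℝ × ℂ} (hg : g ∈ lam S) (hh : h ∈ S) :
    acomp g h ∈ lam S := by
  obtain ⟨n, hn⟩ := mem_iUnion.1 hg
  exact mem_iUnion.2 ⟨n + 1, g, hn, h, hh, rfl⟩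

theorem lam_one {S : Set (ℝ × ℂ)} : ((1, 0) : ℝ × ℂ) ∈ lam S := mem_iUnion.2 ⟨0, rfl⟩

section

variable {ι : Type*} (V : ι → Set X) (Z : ι → X → ℂ) (S : Set (ℝ × ℂ))

/-- the invariant: `q` lies ahead of `w` in direction `v` in the coordinates -/
def Qinv (w v : ℂ) (q : X) : Prop :=
  ∀ j, q ∈ V j → ∃ g ∈ lam S, ∃ t : ℝ, 0 ≤ t ∧ aact g (Z j q) = w + (t : ℂ) * v

variable {V Z S}

theorem Qinv.step {A : AffineSurface X} (hS0 : ∀ g ∈ S, 0 < g.1)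
    (hSr : ∀ i j, ∀ y ∉ A.sing, y ∈ V i → y ∈ V j → ∃ g ∈ S, Z j y = aact g (Z i y))
    {w v : ℂ} {y y' : X} {k : ι} (hy : y ∈ V k) (hy' : y' ∈ V k) (hyr' : y' ∉ A.sing) {τ : ℝ}
    (hτ : 0 ≤ τ) (h : Z k y' = Z k y + (τ : ℂ) * v) (hQ : Qinv V Z S w v y) :
    Qinv V Z S w v y' := by
  intro j hj
  obtain ⟨g, hg, t, ht, hgt⟩ := hQ k hy
  obtain ⟨g', hg', he⟩ := hSr j k y' hyr' hj hy'
  have hg0 : 0 < g.1 := by
    obtain ⟨n, hn⟩ := mem_iUnion.1 hg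
    exact lamN_pos hS0 n g hn
  refine ⟨acomp g g', lam_mul hg hg', t + g.1 * τ, by positivity, ?_⟩
  rw [aact_acomp, ← he, h]
  simp only [aact] at hgt ⊢
  rw [mul_add, add_right_comm, hgt]
  push_cast
  ring

theorem Qinv.init {A : AffineSurface X}
    (hSr : ∀ i j, ∀ y ∉ A.sing, y ∈ V i → y ∈ V j → ∃ g ∈ S, Z j y = aact g (Z i y))
    {v : ℂ} {p : X} (hp : p ∉ A.sing) {i : ι} (hi : p ∈ V i) : Qinv V Z S (Z i p) v p := by
  intro j hj
  obtain ⟨g, hg, he⟩ := hSr j i p hp hj hi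
  refine ⟨acomp (1, 0) g, lam_mul lam_one hg, 0, le_rfl, ?_⟩
  rw [aact_acomp, ← he]
  simp [aact]

end

theorem seg_inv {A : AffineSurface X} {ι : Type*} {V : ι → Set X} {Z : ι → X → ℂ}
    {S : Set (ℝ × ℂ)} (hS0 : ∀ g ∈ S, 0 < g.1)
    (hSr : ∀ i j, ∀ y ∉ A.sing, y ∈ V i → y ∈ V j → ∃ g ∈ S, Z j y = aact g (Z i y))
    (hV : ∀ i, IsOpen (V i)) (hcov : ∀ x, ∃ i, x ∈ V i)
    (hch : ∀ i, ∀ e ∈ A.atlas, ∀ y ∈ V i, y ∈ e.source →
        ∃ a : ℝ, 0 < a ∧ ∃ b : ℂ, ∀ᶠ y' in 𝓝 y, e y' = (a : ℂ) * Z i y' + b)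
    {w v : ℂ} {e : OpenPartialHomeomorph X ℂ} (he : e ∈ A.atlas) {q r : X} (hq : q ∈ e.source)
    (hr : r ∈ e.source) {t : ℝ} (ht : 0 < t) (hqr : e r = e q + (t : ℂ) * v)
    (hs : segment ℝ (e q) (e r) ⊆ e.target) (hQ : Qinv V Z S w v q) : Qinv V Z S w v r := by
  set y : ℝ → X := fun s => e.symm (e q + ((s * t : ℝ) : ℂ) * v) with hy
  have hseg : ∀ s ∈ Icc (0 : ℝ) 1, e q + ((s * t : ℝ) : ℂ) * v ∈ e.target := by
    intro s hs1
    apply hs
    rw [segment_eq_image']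
    refine ⟨s, hs1, ?_⟩
    simp only [hqr, add_sub_cancel_left, Complex.real_smul]
    push_cast
    ring
  have hysrc : ∀ s ∈ Icc (0 : ℝ) 1, y s ∈ e.source := fun s hs1 => e.map_target (hseg s hs1)
  have hey : ∀ s ∈ Icc (0 : ℝ) 1, e (y s) = e q + ((s * t : ℝ) : ℂ) * v :=
    fun s hs1 => e.right_inv (hseg s hs1)
  have hyc : ContinuousOn y (Icc 0 1) := by
    apply e.continuousOn_symm.comp (t := e.target)
    · fun_prop
    · exact hseg
  have h0 : y 0 = q := by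
    simp only [hy, zero_mul, Complex.ofReal_zero, add_zero]
    exact e.left_inv hq
  have h1 : y 1 = r := by
    simp only [hy, one_mul]
    rw [← hqr]
    exact e.left_inv hr
  have hreg : ∀ s ∈ Icc (0 : ℝ) 1, y s ∉ A.sing := fun s hs1 =>
    A.regular e he _ (hysrc s hs1)
  have hloc : ∀ s ∈ Icc (0 : ℝ) 1, ∃ δ : ℝ, 0 < δ ∧ ∀ s1 ∈ Icc (0 : ℝ) 1, ∀ s2 ∈ Icc (0 : ℝ) 1,
      dist s1 s < δ → dist s2 s < δ → s1 ≤ s2 → Qinv V Z S w v (y s1) →
      Qinv V Z S w v (y s2) := by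
    intro s hs1
    obtain ⟨k, hk⟩ := hcov (y s)
    obtain ⟨a, ha, b, hae⟩ := hch k e he (y s) hk (hysrc s hs1)
    have h2 : ∀ᶠ s' in 𝓝[Icc (0 : ℝ) 1] s, e (y s') = (a : ℂ) * Z k (y s') + b :=
      (hyc s hs1).eventually hae
    have h3 : ∀ᶠ s' in 𝓝[Icc (0 : ℝ) 1] s, y s' ∈ V k :=
      (hyc s hs1).eventually ((hV k).mem_nhds hk)
    obtain ⟨δ, hδ, hδ'⟩ := Metric.mem_nhdsWithin_iff.1 (h2.and h3)
    refine ⟨δ, hδ, fun s1 hs1' s2 hs2' hd hd' hle hQ1 => ?_⟩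
    obtain ⟨q1, q2⟩ := hδ' ⟨Metric.mem_ball.2 hd, hs1'⟩
    obtain ⟨r1, r2⟩ := hδ' ⟨Metric.mem_ball.2 hd', hs2'⟩
    have hac : (a : ℂ) ≠ 0 := by exact_mod_cast ha.ne'
    have h5 : Z k (y s2) = Z k (y s1) + (((s2 - s1) * t / a : ℝ) : ℂ) * v := by
      rw [hey s1 hs1'] at q1
      rw [hey s2 hs2'] at r1
      have h6 : (a : ℂ) * Z k (y s2) = (a : ℂ) * (Z k (y s1) + (((s2 - s1) * t / a : ℝ) : ℂ) * v) := by
        rw [mul_add]
        have e1 : (a : ℂ) * Z k (y s2) = e q + ((s2 * t : ℝ) : ℂ) * v - b := by rw [r1]; ring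
        have e2 : (a : ℂ) * Z k (y s1) = e q + ((s1 * t : ℝ) : ℂ) * v - b := by rw [q1]; ring
        rw [e1, e2]
        push_cast
        field_simp
        ring
      exact mul_left_cancel₀ hac h6
    refine Qinv.step (A := A) hS0 hSr q2 r2 (hreg s2 hs2') ?_ h5 hQ1
    have := sub_nonneg.2 hle
    positivity
  choose! δ hδ hR using hloc
  obtain ⟨u, hu0, hm, ⟨m, hmb⟩, hcv⟩ := exists_monotone_Icc_subset_open_cover_Icc
    (zero_le_one (α := ℝ))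
    (c := fun i : Icc (0 : ℝ) 1 => Metric.ball i (δ i)) (fun i => Metric.isOpen_ball)
    (fun x _ => mem_iUnion.2 ⟨x, Metric.mem_ball_self (hδ x x.2)⟩)
  have key : ∀ n, Qinv V Z S w v (y (u n)) := by
    intro n
    induction n with
    | zero => rw [hu0, h0]; exact hQ
    | succ n ih =>
      obtain ⟨i, hi⟩ := hcv n
      have hle : u n ≤ u (n + 1) := hm (Nat.le_succ n)
      have e1 := hi (left_mem_Icc.2 hle)
      have e2 := hi (right_mem_Icc.2 hle)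
      exact hR i i.2 (u n) (u n).2 (u (n + 1)) (u (n + 1)).2 e1 e2 hle ih
  have := key m
  rw [hmb m le_rfl] at this
  rwa [h1] at this

theorem reach_inv {A : AffineSurface X} {ι : Type*} {V : ι → Set X} {Z : ι → X → ℂ}
    {S : Set (ℝ × ℂ)} (hS0 : ∀ g ∈ S, 0 < g.1)
    (hSr : ∀ i j, ∀ y ∉ A.sing, y ∈ V i → y ∈ V j → ∃ g ∈ S, Z j y = aact g (Z i y))
    (hV : ∀ i, IsOpen (V i)) (hcov : ∀ x, ∃ i, x ∈ V i)
    (hch : ∀ i, ∀ e ∈ A.atlas, ∀ y ∈ V i, y ∈ e.source →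
        ∃ a : ℝ, 0 < a ∧ ∃ b : ℂ, ∀ᶠ y' in 𝓝 y, e y' = (a : ℂ) * Z i y' + b)
    {v : ℂ} {p q : X} (h : Reach A v p q) {i : ι} (hi : p ∈ V i) :
    Qinv V Z S (Z i p) v q := by
  obtain ⟨e, e', l, hc⟩ := h
  induction hc with
  | refl he hp => exact Qinv.init (A := A) hSr (A.regular _ he _ hp) hi
  | change e' q l e'' a b h he hq ha hab ih => exact ih
  | move e' q l r t h hr ht hqr hs ih =>
    exact seg_inv hS0 hSr hV hcov hch h.facts.2.2.1 h.facts.2.2.2.1 hr ht hqr hs ih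

theorem local_patch {A : AffineSurface X} {k : X → ℕ} {c : X → OpenPartialHomeomorph X ℂ}
    (hc : ∀ s ∈ A.sing, ConeAt A s (k s) (c s)) (x : X) :
    ∃ (d : OpenPartialHomeomorph X ℂ) (Z : X → ℂ), x ∈ d.source ∧
      (x ∈ A.sing → d = c x ∧ Z = fun y => (c x y) ^ (k x)) ∧
      ∀ e ∈ A.atlas, ∀ y ∈ d.source, y ∈ e.source →
        ∃ a : ℝ, 0 < a ∧ ∃ b : ℂ, ∀ᶠ y' in 𝓝 y, e y' = (a : ℂ) * Z y' + b := by
  by_cases hx : x ∈ A.sing
  · exact ⟨c x, fun y => (c x y) ^ (k x), (hc x hx).mem, fun _ => ⟨rfl, rfl⟩, (hc x hx).rel⟩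
  · obtain ⟨e0, he0, hxe⟩ := A.cover x hx
    refine ⟨e0, fun y => e0 y, hxe, fun h => absurd h hx, ?_⟩
    intro e he y hy hye
    exact A.trans e0 he0 e he y hy hye

theorem saddle_countable [CompactSpace X] [T2Space X] (A : AffineSurface X) {k : X → ℕ}
    {c : X → OpenPartialHomeomorph X ℂ} (hc : ∀ s ∈ A.sing, ConeAt A s (k s) (c s)) :
    {v : ℂ | ‖v‖ = 1 ∧ ∃ p, p ∉ A.sing ∧ FwdS A k c v p ∧ FwdS A k c (-v) p}.Countable := by
  classical
  choose d Z hxd hsg hch using local_patch hc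
  obtain ⟨T0, hT0⟩ := isCompact_univ.elim_nhds_subcover (fun x => (d x).source)
    (fun x _ => (d x).open_source.mem_nhds (hxd x))
  set T : Finset X := T0 ∪ A.sing_finite.toFinset with hT
  have hcov : ∀ x, ∃ i : T, x ∈ (d (i : X)).source := by
    intro x
    obtain ⟨y, hy, hxy⟩ := mem_iUnion₂.1 (hT0.2 (mem_univ x))
    exact ⟨⟨y, Finset.mem_union_left _ hy⟩, hxy⟩
  have h2nd : ∀ i : T, SecondCountableTopology ((d (i : X)).source) := fun i =>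
    (d (i : X)).secondCountableTopology_source
  have : SecondCountableTopology X :=
    TopologicalSpace.secondCountableTopology_of_countable_cover
      (U := fun i : T => (d (i : X)).source) (fun i => (d (i : X)).open_source)
      (by rw [eq_univ_iff_forall]; intro x; exact mem_iUnion.2 (hcov x))
  -- the transition maps
  have hloc : ∀ i j : T, ∃ S : Set (ℝ × ℂ), S.Countable ∧ (∀ g ∈ S, 0 < g.1) ∧
      ∀ y, y ∉ A.sing → y ∈ (d (i : X)).source → y ∈ (d (j : X)).source →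
        ∃ g ∈ S, Z j y = aact g (Z i y) := by
    intro i j
    have hg : ∀ y, y ∉ A.sing ∧ y ∈ (d (i : X)).source ∧ y ∈ (d (j : X)).source →
        ∃ g : ℝ × ℂ, 0 < g.1 ∧ ∀ᶠ y' in 𝓝 y, Z j y' = aact g (Z i y') := by
      rintro y ⟨hy, hyi, hyj⟩
      obtain ⟨e, he, hye⟩ := A.cover y hy
      obtain ⟨a, ha, b, hae⟩ := hch i e he y hyi hye
      obtain ⟨a', ha', b', hbe⟩ := hch j e he y hyj hye
      refine ⟨(a / a', (b - b') / a'), by positivity, ?_⟩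
      filter_upwards [hae, hbe] with y' h1 h2
      have hac : (a' : ℂ) ≠ 0 := by exact_mod_cast ha'.ne'
      simp only [aact]
      push_cast
      field_simp
      linear_combination h1 - h2
    choose! g hg0 hge using hg
    obtain ⟨t, hts, htc, hcv⟩ := TopologicalSpace.countable_cover_nhdsWithin
      (f := fun y => {y' | Z j y' = aact (g y) (Z i y')})
      (s := {y | y ∉ A.sing ∧ y ∈ (d (i : X)).source ∧ y ∈ (d (j : X)).source})
      (fun y hy => mem_nhdsWithin_of_mem_nhds (hge y hy))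
    refine ⟨g '' t, htc.image g, ?_, ?_⟩
    · rintro _ ⟨y, hy, rfl⟩
      exact hg0 y (hts hy)
    · intro y h1 h2 h3
      obtain ⟨x, hx, hyx⟩ := mem_iUnion₂.1 (hcv ⟨h1, h2, h3⟩)
      exact ⟨g x, ⟨x, hx, rfl⟩, hyx⟩
  choose SS hSSc hSS0 hSSr using hloc
  set S : Set (ℝ × ℂ) := ⋃ i, ⋃ j, SS i j with hS
  have hSc : S.Countable := countable_iUnion fun i => countable_iUnion fun j => hSSc i j
  have hS0 : ∀ g ∈ S, 0 < g.1 := by
    intro g hg
    obtain ⟨i, j, h⟩ := mem_iUnion₂.1 hg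
    exact hSS0 i j g h
  have hSr : ∀ i j : T, ∀ y ∉ A.sing, y ∈ (d (i : X)).source → y ∈ (d (j : X)).source →
      ∃ g ∈ S, Z j y = aact g (Z i y) := by
    intro i j y hy hyi hyj
    obtain ⟨g, hg, h⟩ := hSSr i j y hy hyi hyj
    exact ⟨g, mem_iUnion₂.2 ⟨i, j, hg⟩, h⟩
  have hlam : (lam S).Countable := countable_iUnion fun n => lamN_countable hSc n
  have hlam0 : ∀ g ∈ lam S, 0 < g.1 := by
    intro g hg
    obtain ⟨n, hn⟩ := mem_iUnion.1 hg
    exact lamN_pos hS0 n g hn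
  -- one end
  have hend : ∀ (v : ℂ) (p : X) (i : T), p ∈ (d (i : X)).source → FwdS A k c v p →
      ∃ g ∈ lam S, ∃ t : ℝ, 0 < t ∧ g.2 = Z i p + (t : ℂ) * v := by
    rintro v p i hpi ⟨s, hs, q, hq, hpq, r, hr, hcr⟩
    have hsT : s ∈ T := Finset.mem_union_right _ (A.sing_finite.mem_toFinset.2 hs)
    obtain ⟨hd, hZ⟩ := hsg s hs
    have hQ := reach_inv (V := fun i : T => (d (i : X)).source) (Z := fun i : T => Z i) hS0 hSr
      (fun i => (d (i : X)).open_source) hcov (fun i => hch i) hpq (i := i) hpi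
    obtain ⟨g, hg, t, ht, hgt⟩ := hQ ⟨s, hsT⟩ (by
      show q ∈ (d s).source
      rw [hd]; exact hq)
    have hg0 := hlam0 g hg
    refine ⟨g, hg, t + g.1 * r, by positivity, ?_⟩
    have hZq : Z s q = -((r : ℂ) * v) := by rw [hZ]; exact hcr
    simp only [aact] at hgt
    rw [hZq] at hgt
    push_cast
    linear_combination hgt
  have hcount : (image2 (fun g h : ℝ × ℂ => ((1 / ‖g.2 - h.2‖ : ℝ) : ℂ) * (g.2 - h.2)) (lam S)
      (lam S)).Countable := hlam.image2 hlam _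
  refine hcount.mono ?_
  rintro v ⟨hv, p, hp, hf1, hf2⟩
  obtain ⟨i, hi⟩ := hcov p
  obtain ⟨g, hg, t, ht, h1⟩ := hend v p i hi hf1
  obtain ⟨g', hg', t', ht', h2⟩ := hend (-v) p i hi hf2
  refine ⟨g, hg, g', hg', ?_⟩
  have h3 : g.2 - g'.2 = ((t + t' : ℝ) : ℂ) * v := by
    rw [h1, h2]; push_cast; ring
  have h4 : 0 < t + t' := by positivity
  show ((1 / ‖g.2 - g'.2‖ : ℝ) : ℂ) * (g.2 - g'.2) = v
  rw [h3, norm_mul, hv, mul_one, Complex.norm_real, Real.norm_eq_abs, abs_of_pos h4]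
  have h5 : ((t + t' : ℝ) : ℂ) ≠ 0 := by exact_mod_cast h4.ne'
  push_cast at h5 ⊢
  field_simp

end Pool.Agent.H56.FF
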