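import Pool.Agent.H56.FF.Strict
import Pool.Agent.H56.AS.Inv
import Pool.Agent.H56.AS.Cone

/-! A forward half-leaf meets an incoming prong or accumulates on the level set `D = v`. -/

namespace Pool.Agent.H56.FF

open Set Filter Topology
open Pool.Agent.H56.AS

variable {X : Type*} [TopologicalSpace X]

private theorem dfan_lin {A : AffineSurface X} {v : ℂ} {s : X} {k : ℕ}
    {c : OpenPartialHomeomorph X ℂ}
    (hreg : ∀ q ∈ c.source, q ≠ s → q ∉ A.sing)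
    (hrel : ∀ e ∈ A.atlas, ∀ p, p ∈ c.source → p ∈ e.source →
      ∃ a : ℝ, 0 < a ∧ ∃ b : ℂ, ∀ᶠ q in 𝓝 p, e q = (a : ℂ) * (c q) ^ k + b)
    {γ : ℝ → X} {I : Set ℝ} {t : ℝ} (hcont : ContinuousWithinAt γ I t)
    (hsrc : γ t ∈ c.source) (hne : γ t ≠ s) {η : ℂ} {α₀ : ℝ} (hα : 0 < α₀)
    (hlin : ∀ x ∈ I, (c (γ x)) ^ k = η + ((α₀ * x : ℝ) : ℂ) * v) :
    ∃ e ∈ A.atlas, γ t ∈ e.source ∧ ∃ α : ℝ, 0 < α ∧ ∃ β : ℂ,
      ∀ᶠ x in 𝓝[I] t, e (γ x) = β + ((α * x : ℝ) : ℂ) * v := by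
  obtain ⟨e, he, hte⟩ := A.cover _ (hreg _ hsrc hne)
  obtain ⟨a, ha, b, hab⟩ := hrel e he _ hsrc hte
  refine ⟨e, he, hte, a * α₀, mul_pos ha hα, (a : ℂ) * η + b, ?_⟩
  filter_upwards [hcont.eventually hab, self_mem_nhdsWithin] with x hx hxI
  rw [hx, hlin x hxI]
  push_cast
  ring

/-- along an outgoing prong `D` turns strictly -/
theorem prong_out {A : AffineSurface X} {D : X → ℂ} (hD : FanField A D) {v : ℂ} (hv : ‖v‖ = 1)
    {s : X} {k : ℕ} {c : OpenPartialHomeomorph X ℂ} (hc : ConeAt A s k c)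
    {ρ : ℝ} (hρ : 0 < ρ) (hball : Metric.ball (0 : ℂ) ρ ⊆ c.target) {z : ℂ}
    (hz : z ∈ Metric.ball (0 : ℂ) ρ) {T : ℝ} (hT : 0 < T) (hzT : z ^ k = (T : ℂ) * v)
    (him : (D s * (starRingEnd ℂ) v).im ≠ 0) :
    (D s * (starRingEnd ℂ) v).re < (D (c.symm z) * (starRingEnd ℂ) v).re := by
  have hk := hc.two
  have hk0 : k ≠ 0 := by omega
  have hv0 : v ≠ 0 := by
    intro h0
    rw [h0, norm_zero] at hv
    exact zero_ne_one hv
  have hzk0 : z ^ k ≠ 0 := by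
    rw [hzT]
    exact mul_ne_zero (Complex.ofReal_ne_zero.2 hT.ne') hv0
  have hz0 : z ≠ 0 := by
    intro h0
    rw [h0, zero_pow hk0] at hzk0
    exact hzk0 rfl
  have hkp : (0 : ℝ) < 1 / (k : ℝ) := by positivity
  rw [Metric.mem_ball, dist_zero_right] at hz
  obtain ⟨g, hg⟩ : ∃ g : ℝ → ℂ, g = fun t : ℝ => z * ((t ^ (1 / (k : ℝ)) : ℝ) : ℂ) := ⟨_, rfl⟩
  have hgk : ∀ t : ℝ, 0 ≤ t → (g t) ^ k = (0 : ℂ) + ((T * t : ℝ) : ℂ) * v := by
    intro t ht
    rw [hg]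
    show (z * ((t ^ (1 / (k : ℝ)) : ℝ) : ℂ)) ^ k = _
    have h1 : (t ^ (1 / (k : ℝ))) ^ k = t := by
      rw [one_div]
      exact Real.rpow_inv_natCast_pow ht hk0
    rw [mul_pow, ← Complex.ofReal_pow, h1, hzT]
    push_cast
    ring
  have hg0 : ∀ t : ℝ, 0 < t → g t ≠ 0 := by
    intro t ht
    rw [hg]
    exact mul_ne_zero hz0 (Complex.ofReal_ne_zero.2 (Real.rpow_pos_of_pos ht _).ne')
  have hgb : ∀ t ∈ Icc (0 : ℝ) 1, g t ∈ c.target := by
    intro t ht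
    apply hball
    rw [Metric.mem_ball, dist_zero_right]
    refine lt_of_le_of_lt ?_ hz
    rw [hg]
    show ‖z * ((t ^ (1 / (k : ℝ)) : ℝ) : ℂ)‖ ≤ ‖z‖
    rw [norm_mul, Complex.norm_real, Real.norm_of_nonneg (Real.rpow_nonneg ht.1 _)]
    have h1 : t ^ (1 / (k : ℝ)) ≤ 1 := Real.rpow_le_one ht.1 ht.2 hkp.le
    calc ‖z‖ * t ^ (1 / (k : ℝ)) ≤ ‖z‖ * 1 := mul_le_mul_of_nonneg_left h1 (norm_nonneg _)
      _ = ‖z‖ := mul_one _
  have hgc : Continuous g := by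
    rw [hg]
    apply Continuous.mul continuous_const
    apply Complex.continuous_ofReal.comp
    exact Continuous.rpow_const (by fun_prop) (fun _ => Or.inr hkp.le)
  have hγc : ContinuousOn (fun t => c.symm (g t)) (Icc 0 1) :=
    c.continuousOn_symm.comp hgc.continuousOn hgb
  have hcγ : ∀ t ∈ Icc (0 : ℝ) 1, c (c.symm (g t)) = g t := fun t ht => c.right_inv (hgb t ht)
  have hγs : ∀ t ∈ Ioc (0 : ℝ) 1, c.symm (g t) ≠ s := by
    intro t ht h0
    have h1 := congrArg c h0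
    rw [hcγ t ⟨ht.1.le, ht.2⟩, hc.zero] at h1
    exact hg0 t ht.1 h1
  have hreach : ∀ t t' : ℝ, 0 < t → t ≤ t' → t' ≤ 1 → Reach A v (c.symm (g t)) (c.symm (g t')) := by
    intro t t' ht htt ht'
    have hsub : Icc t t' ⊆ Icc (0 : ℝ) 1 := Icc_subset_Icc ht.le ht'
    apply path_reach (A := A) (v := v) (γ := fun t => c.symm (g t)) htt (hγc.mono hsub)
    intro x hx
    apply dfan_lin hc.reg hc.rel ((hγc.mono hsub) x hx) (c.map_target (hgb x (hsub hx)))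
      (hγs x ⟨lt_of_lt_of_le ht hx.1, (hsub hx).2⟩) (η := 0) (α₀ := T) hT
    intro y hy
    rw [hcγ y (hsub hy), hgk y (hsub hy).1]
  have hγ0 : c.symm (g 0) = s := by
    have h1 : g 0 = c s := by
      rw [hg, hc.zero]
      show z * (((0 : ℝ) ^ (1 / (k : ℝ)) : ℝ) : ℂ) = 0
      rw [Real.zero_rpow hkp.ne']
      simp
    rw [h1, c.left_inv hc.mem]
  have hγ1 : c.symm (g 1) = c.symm z := by
    have h1 : g 1 = z := by
      rw [hg]
      simp
    rw [h1]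
  -- the function along the prong
  have hF : ContinuousOn (fun t => D (c.symm (g t)) * (starRingEnd ℂ) v) (Icc 0 1) :=
    (hD.cont.comp_continuousOn hγc).mul continuousOn_const
  have hF0 : ContinuousWithinAt (fun t => D (c.symm (g t)) * (starRingEnd ℂ) v) (Icc 0 1) 0 :=
    hF 0 ⟨le_rfl, zero_le_one⟩
  have hlim : Tendsto (fun t => D (c.symm (g t)) * (starRingEnd ℂ) v) (𝓝[Ioc (0 : ℝ) 1] 0)
      (𝓝 (D s * (starRingEnd ℂ) v)) := by
    have h1 := (hF0.mono Ioc_subset_Icc_self).tendsto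
    rwa [hγ0] at h1
  have hne : (𝓝[Ioc (0 : ℝ) 1] 0).NeBot := by
    rw [nhdsWithin_Ioc_eq_nhdsGT zero_lt_one]
    infer_instance
  obtain ⟨t₀, ⟨h1, h2⟩, h3⟩ : ∃ t₀ : ℝ, t₀ ∈ Ioc (0 : ℝ) 1 ∧ t₀ < 1 ∧
      (D (c.symm (g t₀)) * (starRingEnd ℂ) v).im ≠ 0 := by
    have e1 : ∀ᶠ t in 𝓝[Ioc (0 : ℝ) 1] 0, (D (c.symm (g t)) * (starRingEnd ℂ) v).im ≠ 0 :=
      ((Complex.continuous_im.tendsto _).comp hlim).eventually (isOpen_ne.mem_nhds him)
    have e2 : ∀ᶠ t in 𝓝[Ioc (0 : ℝ) 1] (0 : ℝ), t < 1 :=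
      mem_nhdsWithin_of_mem_nhds (gt_mem_nhds zero_lt_one)
    obtain ⟨t, ht1, ht2, ht3⟩ := (e1.and (e2.and self_mem_nhdsWithin)).exists
    exact ⟨t, ht3, ht2, ht1⟩
  obtain ⟨h3, h4⟩ := h3
  have hlt : (D (c.symm (g t₀)) * (starRingEnd ℂ) v).re < (D (c.symm z) * (starRingEnd ℂ) v).re := by
    rcases fan_strict hD hv (hreach t₀ 1 h1 h2 le_rfl) h4 with h5 | h5
    · exfalso
      have h6 := congrArg c h5
      rw [hcγ t₀ ⟨h1.le, h2⟩, hcγ 1 ⟨zero_le_one, le_rfl⟩] at h6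
      have h7 : g t₀ ^ k = g 1 ^ k := by rw [h6]
      rw [hgk t₀ h1.le, hgk 1 zero_le_one] at h7
      have h8 : ((T * t₀ : ℝ) : ℂ) = ((T * 1 : ℝ) : ℂ) := by
        have h9 : (((T * t₀ : ℝ) : ℂ) - ((T * 1 : ℝ) : ℂ)) * v = 0 := by linear_combination h7
        exact sub_eq_zero.1 ((mul_eq_zero.1 h9).resolve_right hv0)
      have h9 : T * t₀ = T * 1 := by exact_mod_cast h8
      have h10 : t₀ = 1 := mul_left_cancel₀ hT.ne' h9
      exact absurd h10 h3.ne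
    · rwa [hγ1] at h5
  refine lt_of_le_of_lt ?_ hlt
  refine le_of_tendsto ((Complex.continuous_re.tendsto _).comp hlim) ?_
  have e1 : ∀ᶠ t in 𝓝[Ioc (0 : ℝ) 1] (0 : ℝ), t < t₀ :=
    mem_nhdsWithin_of_mem_nhds (gt_mem_nhds h1)
  filter_upwards [e1, self_mem_nhdsWithin] with t ht1 ht2
  exact fan_weak hD hv (hreach t t₀ ht2.1 ht1.le h2)

theorem dfan [CompactSpace X] [T2Space X] {A : AffineSurface X} {D : X → ℂ}
    (hD : FanField A D) {k : X → ℕ} {c : X → OpenPartialHomeomorph X ℂ}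
    (hc : ∀ s ∈ A.sing, ConeAt A s (k s) (c s)) {v : ℂ} (hv : ‖v‖ = 1)
    {p : X} (hp : p ∉ A.sing) (hpv : (D p * (starRingEnd ℂ) v).im ≠ 0) :
    FwdS A k c v p ∨ ∃ x, D x = v ∧ x ∈ closure {q | Reach A v p q} := by
  have hvv : v * (starRingEnd ℂ) v = 1 := by
    rw [Complex.mul_conj, Complex.normSq_eq_norm_sq, hv]
    simp
  have hv0 : v ≠ 0 := by
    intro h0
    rw [h0, norm_zero] at hv
    exact zero_ne_one hv
  have hn : ∀ x : ℂ, ‖x‖ = 1 →
      (x * (starRingEnd ℂ) v).re ^ 2 + (x * (starRingEnd ℂ) v).im ^ 2 = 1 := by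
    intro x hx
    have h1 : ‖x * (starRingEnd ℂ) v‖ = 1 := by
      rw [norm_mul, RCLike.norm_conj, hx, hv, one_mul]
    have h2 : Complex.normSq (x * (starRingEnd ℂ) v) = 1 := by
      rw [Complex.normSq_eq_norm_sq, h1, one_pow]
    rw [Complex.normSq_apply] at h2
    nlinarith
  have hpS : p ∈ closure {q | Reach A v p q} := subset_closure (Reach.refl hp)
  have hcont : Continuous fun x => (D x * (starRingEnd ℂ) v).re :=
    Complex.continuous_re.comp (hD.cont.mul continuous_const)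
  obtain ⟨x, hxK, hxmax⟩ := (isClosed_closure (s := {q | Reach A v p q})).isCompact.exists_isMaxOn
    ⟨p, hpS⟩ hcont.continuousOn
  have hmax : ∀ y ∈ closure {q | Reach A v p q},
      (D y * (starRingEnd ℂ) v).re ≤ (D x * (starRingEnd ℂ) v).re := fun y hy => hxmax hy
  have hp1 : -1 < (D p * (starRingEnd ℂ) v).re := by
    have h1 := hn _ (hD.norm p)
    have h2 : 0 < (D p * (starRingEnd ℂ) v).im ^ 2 := by positivity
    nlinarith
  have hx1 : -1 < (D x * (starRingEnd ℂ) v).re := lt_of_lt_of_le hp1 (hmax p hpS)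
  by_cases him : (D x * (starRingEnd ℂ) v).im = 0
  · right
    refine ⟨x, ?_, hxK⟩
    have h1 := hn _ (hD.norm x)
    rw [him] at h1
    have h2 : (D x * (starRingEnd ℂ) v).re = 1 := by nlinarith
    have h3 : D x * (starRingEnd ℂ) v = 1 := Complex.ext (by rw [h2]; simp) (by rw [him]; simp)
    calc D x = D x * (v * (starRingEnd ℂ) v) := by rw [hvv, mul_one]
      _ = (D x * (starRingEnd ℂ) v) * v := by ring
      _ = v := by rw [h3, one_mul]
  by_cases hxs : x ∈ A.sing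
  · -- a cone point
    have hcx := hc x hxs
    obtain ⟨K, hK⟩ : ∃ K : ℕ, K = k x := ⟨_, rfl⟩
    obtain ⟨C, hC⟩ : ∃ C : OpenPartialHomeomorph X ℂ, C = c x := ⟨_, rfl⟩
    rw [← hK, ← hC] at hcx
    have hk := hcx.two
    have hk0 : K ≠ 0 := by omega
    obtain ⟨ρ, hρ, hball⟩ : ∃ ρ > 0, Metric.ball (0 : ℂ) ρ ⊆ C.target := by
      have h1 : (0 : ℂ) ∈ C.target := by
        rw [← hcx.zero]
        exact C.map_source hcx.mem
      exact Metric.isOpen_iff.1 C.open_target 0 h1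
    have hρk : 0 < ρ ^ K := pow_pos hρ K
    -- a smaller radius
    obtain ⟨ρ', hρ'0, hρ'ρ, hρ'k⟩ : ∃ ρ' : ℝ, 0 < ρ' ∧ ρ' < ρ ∧ ρ ^ K / 2 < ρ' ^ K := by
      have h1 : ∀ᶠ y in 𝓝 ρ, ρ ^ K / 2 < y ^ K :=
        (continuous_pow K).continuousAt.eventually (lt_mem_nhds (by linarith))
      have h2 : ∀ᶠ y in 𝓝 ρ, 0 < y := lt_mem_nhds hρ
      have h3 : ∀ᶠ y in 𝓝[<] ρ, (ρ ^ K / 2 < y ^ K ∧ 0 < y) ∧ y < ρ :=
        ((h1.and h2).filter_mono nhdsWithin_le_nhds).and self_mem_nhdsWithin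
      obtain ⟨y, ⟨h4, h5⟩, h6⟩ := h3.exists
      exact ⟨y, h5, h6, h4⟩
    obtain ⟨T, hT⟩ : ∃ T : ℝ, T = ρ ^ K / 4 := ⟨_, rfl⟩
    have hT0 : 0 < T := by rw [hT]; positivity
    -- the compact set
    have hcb : Metric.closedBall (0 : ℂ) ρ' ⊆ C.target :=
      (Metric.closedBall_subset_ball hρ'ρ).trans hball
    obtain ⟨Z, hZ⟩ : ∃ Z : Set ℂ, Z = {z | z ∈ Metric.closedBall (0 : ℂ) ρ' ∧
        (D (C.symm z) * (starRingEnd ℂ) v).re ≤ (D x * (starRingEnd ℂ) v).re} := ⟨_, rfl⟩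
    have hZc : IsCompact Z := by
      have h1 : ContinuousOn (fun z => (D (C.symm z) * (starRingEnd ℂ) v).re)
          (Metric.closedBall (0 : ℂ) ρ') :=
        hcont.comp_continuousOn (C.continuousOn_symm.mono hcb)
      have h2 : IsClosed (Metric.closedBall (0 : ℂ) ρ' ∩
          (fun z => (D (C.symm z) * (starRingEnd ℂ) v).re) ⁻¹' (Iic (D x * (starRingEnd ℂ) v).re)) :=
        h1.preimage_isClosed_of_isClosed Metric.isClosed_closedBall isClosed_Iic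
      rw [hZ]
      exact (isCompact_closedBall (0 : ℂ) ρ').of_isClosed_subset h2 inter_subset_left
    obtain ⟨δ, hδ, hδZ⟩ : ∃ δ : ℝ, 0 < δ ∧ ∀ z ∈ Z, δ ≤ ‖z ^ K - (T : ℂ) * v‖ := by
      rcases Z.eq_empty_or_nonempty with h0 | h0
      · exact ⟨1, one_pos, fun z hz => by rw [h0] at hz; exact absurd hz (notMem_empty z)⟩
      · obtain ⟨z₀, hz₀, hmin⟩ := hZc.exists_isMinOn h0
          (f := fun z : ℂ => ‖z ^ K - (T : ℂ) * v‖) (by fun_prop)
        refine ⟨‖z₀ ^ K - (T : ℂ) * v‖, ?_, fun z hz => hmin hz⟩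
        rw [norm_pos_iff]
        intro h1
        rw [hZ] at hz₀
        obtain ⟨h2, h3⟩ := hz₀
        exact absurd h3 (not_le.2 (prong_out hD hv hcx hρ hball
          (Metric.closedBall_subset_ball hρ'ρ h2) hT0 (sub_eq_zero.1 h1) him))
    have hnc : ContinuousAt (fun q : X => ‖C q‖) x := (C.continuousAt hcx.mem).norm
    have ev2 : ∀ᶠ q in 𝓝 x, ‖C q‖ ^ K < min δ (ρ ^ K / 4) := by
      refine (hnc.pow K).eventually (gt_mem_nhds ?_)
      show ‖C x‖ ^ K < _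
      rw [hcx.zero, norm_zero, zero_pow hk0]
      exact lt_min hδ (by positivity)
    have ev4 : ∀ᶠ q in 𝓝 x, q ∈ C.source := C.open_source.mem_nhds hcx.mem
    obtain ⟨q, ⟨h2, h4⟩, hqS⟩ := mem_closure_iff_nhds.1 hxK _ (ev2.and ev4)
    have hqS' : Reach A v p q := hqS
    have hqx : q ≠ x := by
      intro h0
      exact hqS'.right (h0 ▸ hxs)
    by_cases hpr : ∃ r : ℝ, 0 < r ∧ (C q) ^ K = -((r : ℂ) * v)
    · left
      obtain ⟨r, hr, hqr⟩ := hpr
      refine ⟨x, hxs, q, ?_, hqS', r, hr, ?_⟩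
      · rw [← hC]
        exact h4
      · rw [← hC, ← hK]
        exact hqr
    · exfalso
      have h5 : ‖C q‖ ^ K < δ := lt_of_lt_of_le h2 (min_le_left _ _)
      have h6 : ‖C q‖ ^ K < ρ ^ K / 4 := lt_of_lt_of_le h2 (min_le_right _ _)
      obtain ⟨q', hq'c, hqq', hq'k⟩ := cone_move hv hk hcx.mem hcx.zero hcx.reg hcx.rel hρ hball h4
        hqx hT0.le (by rw [hT]; linarith) hpr
      have h7 := hmax q' (subset_closure (hqS'.trans hqq'))
      have h8 : C q' ∈ Z := by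
        rw [hZ]
        refine ⟨?_, ?_⟩
        · rw [mem_closedBall_zero_iff]
          apply le_of_lt
          apply lt_of_pow_lt_pow_left₀ K hρ'0.le
          rw [← norm_pow, hq'k]
          calc ‖(C q) ^ K + (T : ℂ) * v‖ ≤ ‖(C q) ^ K‖ + ‖(T : ℂ) * v‖ := norm_add_le _ _
            _ = ‖C q‖ ^ K + T := by
              rw [norm_pow, norm_mul, hv, mul_one, Complex.norm_real, Real.norm_of_nonneg hT0.le]
            _ < ρ' ^ K := by rw [hT]; linarith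
        · rw [C.left_inv hq'c]
          exact h7
      have h9 := hδZ _ h8
      rw [hq'k, add_sub_cancel_right, norm_pow] at h9
      linarith
  · -- a regular point
    exfalso
    obtain ⟨e, he, hxe⟩ := A.cover x hxs
    obtain ⟨δ, hδ, hsub⟩ := Metric.isOpen_iff.1 e.open_target (e x) (e.map_source hxe)
    have hball : e x + ((δ / 2 : ℝ) : ℂ) * v ∈ Metric.ball (e x) δ := by
      rw [Metric.mem_ball, dist_eq_norm, add_sub_cancel_left, norm_mul, hv, mul_one,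
        Complex.norm_real, Real.norm_of_nonneg (by positivity)]
      linarith
    have h4 : e (e.symm (e x + ((δ / 2 : ℝ) : ℂ) * v)) = e x + ((δ / 2 : ℝ) : ℂ) * v :=
      e.right_inv (hsub hball)
    have hseg : segment ℝ (e x) (e x + ((δ / 2 : ℝ) : ℂ) * v) ⊆ e.target :=
      ((convex_ball (e x) δ).segment_subset (Metric.mem_ball_self hδ) hball).trans hsub
    have hreach : Reach A v x (e.symm (e x + ((δ / 2 : ℝ) : ℂ) * v)) :=
      reach_segment he hxe (e.map_target (hsub hball)) (by positivity) h4 (by rw [h4]; exact hseg)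
    rcases fan_strict hD hv hreach him with h5 | h5
    · have h6 := congrArg e h5
      rw [h4] at h6
      have h7 : ((δ / 2 : ℝ) : ℂ) * v = 0 := by
        linear_combination -h6
      have h8 : ((δ / 2 : ℝ) : ℂ) ≠ 0 := Complex.ofReal_ne_zero.2 (by positivity)
      exact mul_ne_zero h8 hv0 h7
    · exact absurd (hmax _ (closure_inv hxK hreach)) (not_le.2 h5)

end Pool.Agent.H56.FF
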