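import Pool.Agent.H56.AS.Defs

/-! Fan fields on affine surfaces. -/

namespace Pool.Agent.H56.FF

open Set Filter Topology
open Pool.Agent.H56.AS

variable {X : Type*} [TopologicalSpace X]

/-- A fan field: a continuous field of unit directions which is not constant on any nonempty open
set and which turns towards `v` (weakly) along every straight segment of direction `v`. -/
structure FanField (A : AffineSurface X) (D : X → ℂ) : Prop where
  cont : Continuous D
  norm : ∀ p, ‖D p‖ = 1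
  turn : ∀ e ∈ A.atlas, ∀ p ∈ e.source, ∀ q ∈ e.source, segment ℝ (e p) (e q) ⊆ e.target →
    ∀ (v : ℂ) (t : ℝ), ‖v‖ = 1 → 0 < t → e q = e p + (t : ℂ) * v →
      (D p * (starRingEnd ℂ) v).re ≤ (D q * (starRingEnd ℂ) v).re
  nonconst : ∀ U : Set X, IsOpen U → U.Nonempty → ∃ p ∈ U, ∃ q ∈ U, D p ≠ D q

/-- A cone chart at a singular point. -/
structure ConeAt (A : AffineSurface X) (s : X) (k : ℕ) (c : OpenPartialHomeomorph X ℂ) : Prop where
  two : 2 ≤ k
  mem : s ∈ c.source
  zero : c s = 0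
  reg : ∀ q ∈ c.source, q ≠ s → q ∉ A.sing
  rel : ∀ e ∈ A.atlas, ∀ p, p ∈ c.source → p ∈ e.source →
      ∃ a : ℝ, 0 < a ∧ ∃ b : ℂ, ∀ᶠ q in 𝓝 p, e q = (a : ℂ) * (c q) ^ k + b

/-- The forward half-leaf of `p` meets an incoming prong of a singular point. -/
def FwdS (A : AffineSurface X) (k : X → ℕ) (c : X → OpenPartialHomeomorph X ℂ) (v : ℂ) (p : X) :
    Prop :=
  ∃ s ∈ A.sing, ∃ q ∈ (c s).source, Reach A v p q ∧
    ∃ r : ℝ, 0 < r ∧ (c s q) ^ (k s) = -((r : ℂ) * v)

end Pool.Agent.H56.FF
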