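import Pool.Agent.H56.FF.KFan
import Pool.Agent.H56.FF.DFan
import Pool.Agent.H56.FF.Count
import Pool.Agent.H56.AS.Final

/-! Fan fields: all but countably many directions are hyperbolic. -/

namespace Pool.Agent.H56.FF

open Set Filter Topology
open Pool.Agent.H56.AS

variable {X : Type*} [TopologicalSpace X]

/-- A direction without saddle connections in which no singular point is radial is hyperbolic. -/
theorem hyperbolic_of_no_saddle [CompactSpace X] [T2Space X] {A : AffineSurface X}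
    {D : X → ℂ} (hD : FanField A D) {k : X → ℕ} {c : X → OpenPartialHomeomorph X ℂ}
    (hc : ∀ s ∈ A.sing, ConeAt A s (k s) (c s)) {v : ℂ} (hv : ‖v‖ = 1)
    (hs : ∀ s ∈ A.sing, D s ≠ v) (hs' : ∀ s ∈ A.sing, D s ≠ -v)
    (hsad : ∀ p, p ∉ A.sing → ¬ (FwdS A k c v p ∧ FwdS A k c (-v) p)) : HyperbolicDir A v := by
  have hv' : ‖-v‖ = 1 := by rw [norm_neg]; exact hv
  obtain ⟨F1, hF1, hc1, hk1⟩ := kfan hD hv hs
  obtain ⟨F2, hF2, hc2, hk2⟩ := kfan hD hv' hs'
  have key1 : ∀ p x, x ∈ closure {q | Reach A v p q} → D x = v →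
      ∃ y ∈ F1 ∪ F2, closedLeaf A v y ⊆ closure (leaf A v p) := by
    intro p x hx hxv
    obtain ⟨y, hy, hsub⟩ := hk1 x hxv
    exact ⟨y, Or.inl hy, fin_aux hx hsub⟩
  have key2 : ∀ p x, x ∈ closure {q | Reach A (-v) p q} → D x = -v →
      ∃ y ∈ F1 ∪ F2, closedLeaf A v y ⊆ closure (leaf A v p) := by
    intro p x hx hxv
    obtain ⟨y, hy, hsub⟩ := hk2 x hxv
    refine ⟨y, Or.inr hy, ?_⟩
    have := fin_aux hx hsub
    rwa [closedLeaf_neg, leaf_neg] at this
  refine ⟨F1 ∪ F2, hF1.union hF2, ?_, ?_⟩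
  · rintro y (hy | hy)
    · exact hc1 y hy
    · exact closedHyp_neg (hc2 y hy)
  · intro p hp
    by_cases him : (D p * (starRingEnd ℂ) v).im = 0
    · rcases Pool.Agent.H56.AS.eq_or_neg (hD.norm p) hv him with h | h
      · exact key1 p p (subset_closure (Reach.refl hp)) h
      · exact key2 p p (subset_closure (Reach.refl hp)) h
    · have him' : (D p * (starRingEnd ℂ) (-v)).im ≠ 0 := by
        rw [map_neg, mul_neg, Complex.neg_im]
        exact neg_ne_zero.2 him
      rcases dfan hD hc hv hp him with h1 | ⟨x, hx, hxc⟩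
      · rcases dfan hD hc hv' hp him' with h2 | ⟨x, hx, hxc⟩
        · exact absurd ⟨h1, h2⟩ (hsad p hp)
        · exact key2 p x hxc hx
      · exact key1 p x hxc hx

theorem exists_cones (A : AffineSurface X) : ∃ (k : X → ℕ) (c : X → OpenPartialHomeomorph X ℂ),
    ∀ s ∈ A.sing, ConeAt A s (k s) (c s) := by
  classical
  by_cases hne : Nonempty (OpenPartialHomeomorph X ℂ)
  · obtain ⟨d0⟩ := hne
    have h : ∀ s : X, ∃ (k : ℕ) (c : OpenPartialHomeomorph X ℂ), s ∈ A.sing → ConeAt A s k c := by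
      intro s
      by_cases hs : s ∈ A.sing
      · obtain ⟨k, hk, c, h1, h2, h3, h4⟩ := A.cone s hs
        exact ⟨k, c, fun _ => ⟨hk, h1, h2, h3, h4⟩⟩
      · exact ⟨0, d0, fun h => absurd h hs⟩
    choose k c h using h
    exact ⟨k, c, fun s hs => h s hs⟩
  · by_cases hX : Nonempty X
    · obtain ⟨x⟩ := hX
      exfalso
      apply hne
      by_cases hx : x ∈ A.sing
      · obtain ⟨k, hk, c, h1, h2, h3, h4⟩ := A.cone x hx
        exact ⟨c⟩
      · obtain ⟨e, he, hxe⟩ := A.cover x hx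
        exact ⟨e⟩
    · refine ⟨fun _ => 0, fun x => absurd ⟨x⟩ hX, fun s _ => absurd ⟨s⟩ hX⟩

theorem countable_nonhyperbolic_fan [CompactSpace X] [T2Space X] (A : AffineSurface X)
    (D : X → ℂ) (hD : FanField A D) : {v : ℂ | ‖v‖ = 1 ∧ ¬ HyperbolicDir A v}.Countable := by
  obtain ⟨k, c, hc⟩ := exists_cones A
  have h1 := saddle_countable A hc
  have h2 : (D '' A.sing).Countable := (A.sing_finite.image D).countable
  have h3 : ((fun z : ℂ => -z) '' (D '' A.sing)).Countable := h2.image _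
  refine ((h1.union h2).union h3).mono ?_
  rintro v ⟨hv, hnh⟩
  by_contra hcon
  apply hnh
  simp only [mem_union, not_or] at hcon
  obtain ⟨⟨hc1, hc2⟩, hc3⟩ := hcon
  refine hyperbolic_of_no_saddle hD hc hv ?_ ?_ ?_
  · intro s hs hsv
    exact hc2 ⟨s, hs, hsv⟩
  · intro s hs hsv
    exact hc3 ⟨D s, ⟨s, hs, rfl⟩, by simp [hsv]⟩
  · intro p hp hpp
    exact hc1 ⟨hv, p, hp, hpp.1, hpp.2⟩

end Pool.Agent.H56.FF
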