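import Pool.Agent.H56.FF.Defs
import Pool.Agent.H56.AS.Inv

/-! Parallel transport of a continuation. -/

namespace Pool.Agent.H56.FF

open Set Filter Topology
open Pool.Agent.H56.AS

variable {X : Type*} [TopologicalSpace X]

theorem cont_transport {A : AffineSurface X} {v : ℂ} {e : OpenPartialHomeomorph X ℂ} {p : X}
    {e' : OpenPartialHomeomorph X ℂ} {q : X} {l : ℝ} (h : Cont A v e p e' q l) :
    ∀ W ∈ 𝓝 q, ∀ᶠ p' in 𝓝 p, ∃ q' ∈ W, q' ∈ e'.source ∧ Cont A v e p' e' q' l ∧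
      e' q' = e' q + (l : ℂ) * (e p' - e p) := by
  induction h with
  | refl he hp =>
    intro W hW
    filter_upwards [hW, e.open_source.mem_nhds hp] with p' h1 h2
    exact ⟨p', h1, h2, Cont.refl _ _ he h2, by push_cast; ring⟩
  | change e' q l e'' a b h he hq ha hab ih =>
    intro W hW
    have ev1 : ∀ᶠ q1 in 𝓝 q, q1 ∈ W := hW
    have ev2 : ∀ᶠ q1 in 𝓝 q, q1 ∈ e''.source := e''.open_source.mem_nhds hq
    have ev3 : ∀ᶠ q1 in 𝓝 q, ∀ᶠ x in 𝓝 q1, e'' x = (a : ℂ) * e' x + b :=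
      eventually_eventually_nhds.2 hab
    have ev := ev1.and (ev2.and ev3)
    filter_upwards [ih _ ev] with p' hp'
    obtain ⟨q', ⟨h1, h2, h3⟩, h4, h5, h6⟩ := hp'
    refine ⟨q', h1, h2, Cont.change _ _ e' q' l e'' a b h5 he h2 ha h3, ?_⟩
    have e1 := h3.self_of_nhds
    have e2 := hab.self_of_nhds
    rw [e1, e2, h6]
    push_cast
    ring
  | move e' q l r t h hr ht hqr hs ih =>
    intro W hW
    obtain ⟨-, -, he', hq', -⟩ := h.facts
    have hK : IsCompact (segment ℝ (e' q) (e' r)) := by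
      rw [segment_eq_image_lineMap]
      exact isCompact_Icc.image (AffineMap.lineMap_continuous)
    obtain ⟨δ, hδ, hsub⟩ := hK.exists_thickening_subset_open e'.open_target hs
    have hcont : Tendsto (fun r1 => e' r1 + (t : ℂ) * v) (𝓝 q) (𝓝 (e' r)) := by
      rw [hqr]
      exact (e'.continuousAt hq').add tendsto_const_nhds
    have hsym : Tendsto e'.symm (𝓝 (e' r)) (𝓝 r) := by
      have := e'.symm.continuousAt (x := e' r) (by simpa using e'.map_source hr)
      have h2 : e'.symm (e' r) = r := e'.left_inv hr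
      rw [ContinuousAt, h2] at this
      exact this
    have ev1 : ∀ᶠ r1 in 𝓝 q, e'.symm (e' r1 + (t : ℂ) * v) ∈ W := (hsym.comp hcont) hW
    have ev2 : ∀ᶠ r1 in 𝓝 q, r1 ∈ e'.source := e'.open_source.mem_nhds hq'
    have ev3 : ∀ᶠ r1 in 𝓝 q, dist (e' r1) (e' q) < δ :=
      (e'.continuousAt hq') (Metric.ball_mem_nhds _ hδ)
    filter_upwards [ih _ (ev1.and (ev2.and ev3))] with p' hp'
    obtain ⟨r1, ⟨h1, h2, h3⟩, -, h5, h6⟩ := hp'
    have hseg : segment ℝ (e' r1) (e' r1 + (t : ℂ) * v) ⊆ e'.target := by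
      intro z hz
      apply hsub
      obtain ⟨z', hz', hzz⟩ := segment_shift (w := e' q) hz
      rw [← hqr] at hz'
      rw [Metric.mem_thickening_iff]
      refine ⟨z', hz', ?_⟩
      rw [dist_eq_norm, hzz, ← dist_eq_norm]
      exact h3
    have htgt : e' r1 + (t : ℂ) * v ∈ e'.target := hseg (right_mem_segment ℝ _ _)
    have h4 : e' (e'.symm (e' r1 + (t : ℂ) * v)) = e' r1 + (t : ℂ) * v := e'.right_inv htgt
    have hsrc : e'.symm (e' r1 + (t : ℂ) * v) ∈ e'.source := e'.map_target htgt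
    refine ⟨_, h1, hsrc, Cont.move _ _ e' r1 l _ t h5 hsrc ht h4 (by rw [h4]; exact hseg), ?_⟩
    rw [h4, h6, hqr]
    ring

end Pool.Agent.H56.FF
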