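import Pool.Agent.H56.FF.Strict
import Pool.Agent.H56.FF.Transport

/-! The level set `D = v` of a fan field consists of closed hyperbolic leaves. -/

namespace Pool.Agent.H56.FF

open Set Filter Topology
open Pool.Agent.H56.AS

variable {X : Type*} [TopologicalSpace X]

private theorem kfan_cv {v : ℂ} (hv : ‖v‖ = 1) : v * (starRingEnd ℂ) v = 1 := by
  rw [Complex.mul_conj, Complex.normSq_eq_norm_sq, hv]
  norm_num

private theorem kfan_real {v z : ℂ} (hv : ‖v‖ = 1) (h : (z * (starRingEnd ℂ) v).im = 0) :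
    z = (((z * (starRingEnd ℂ) v).re : ℝ) : ℂ) * v := by
  have h1 : (((z * (starRingEnd ℂ) v).re : ℝ) : ℂ) = z * (starRingEnd ℂ) v :=
    Complex.ext (by simp) (by rw [h]; simp)
  rw [h1, mul_assoc, mul_comm ((starRingEnd ℂ) v) v, kfan_cv hv, mul_one]

private theorem kfan_ls {A : AffineSurface X} {D : X → ℂ} (hD : FanField A D) {v : ℂ} (hv : ‖v‖ = 1)
    (hs : ∀ s ∈ A.sing, D s ≠ v) {x : X} (hx : D x = v) :
    ∃ e ∈ A.atlas, ∃ ε : ℝ, 0 < ε ∧ Metric.ball (e x) ε ⊆ e.target ∧ ∃ x' ∈ e.source,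
      e x' = e x + ((ε / 2 : ℝ) : ℂ) * v ∧ D x' = v ∧ Reach A v x x' ∧ ∃ V ∈ 𝓝 x, ∀ q ∈ V,
        q ∈ e.source ∧ ‖e q - e x‖ < ε / 4 ∧
        (D q = v → Cont A v e q e x' 1 ∧ ∃ τ : ℝ, 0 < τ ∧ e x' = e q + (τ : ℂ) * v) := by
  have hxs : x ∉ A.sing := fun h => hs x h hx
  obtain ⟨e, he, hxe⟩ := A.cover x hxs
  obtain ⟨ε, hε, hball⟩ := Metric.isOpen_iff.1 e.open_target (e x) (e.map_source hxe)
  have hnv : ‖((ε / 2 : ℝ) : ℂ) * v‖ = ε / 2 := by
    rw [norm_mul, hv, mul_one, Complex.norm_real, Real.norm_of_nonneg (by linarith)]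
  have hmem : e x + ((ε / 2 : ℝ) : ℂ) * v ∈ Metric.ball (e x) ε := by
    rw [Metric.mem_ball, dist_eq_norm, add_sub_cancel_left, hnv]
    linarith
  obtain ⟨x', hx'⟩ : ∃ x', x' = e.symm (e x + ((ε / 2 : ℝ) : ℂ) * v) := ⟨_, rfl⟩
  have hx's : x' ∈ e.source := by
    rw [hx']
    exact e.map_target (hball hmem)
  have hex' : e x' = e x + ((ε / 2 : ℝ) : ℂ) * v := by
    rw [hx']
    exact e.right_inv (hball hmem)
  have hc : Cont A v e x e x' 1 := by
    refine Cont.move e x e x 1 x' (ε / 2) (Cont.refl e x he hxe) hx's (by linarith) hex' ?_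
    rw [hex']
    exact ((convex_ball (e x) ε).segment_subset (Metric.mem_ball_self hε) hmem).trans hball
  have hDx' : D x' = v := fan_persist hD hv ⟨e, e, 1, hc⟩ hx
  refine ⟨e, he, ε, hε, hball, x', hx's, hex', hDx', ⟨e, e, 1, hc⟩,
    e.source ∩ e ⁻¹' Metric.ball (e x) (ε / 4),
    inter_mem (e.open_source.mem_nhds hxe) ((e.continuousAt hxe).preimage_mem_nhds
      (Metric.ball_mem_nhds _ (by linarith))), ?_⟩
  rintro q ⟨hqe, hqb⟩
  have hqb' : ‖e q - e x‖ < ε / 4 := by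
    have := Metric.mem_ball.1 (mem_preimage.1 hqb)
    rwa [dist_eq_norm] at this
  have hqB : e q ∈ Metric.ball (e x) ε := by
    rw [Metric.mem_ball, dist_eq_norm]
    linarith
  refine ⟨hqe, hqb', fun hDq => ?_⟩
  have him := fan_line hD hv he hxe hqe
    (((convex_ball (e x) ε).segment_subset (Metric.mem_ball_self hε) hqB).trans hball) hx hDq
  have hz := kfan_real hv him
  set τ : ℝ := ((e q - e x) * (starRingEnd ℂ) v).re with hτ
  have hτ1 : |τ| < ε / 4 := by
    have h1 := congrArg norm hz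
    rw [norm_mul, hv, mul_one, Complex.norm_real, Real.norm_eq_abs] at h1
    rw [← h1]
    exact hqb'
  have hτ2 := (abs_lt.1 hτ1).2
  have heq : e x' = e q + ((ε / 2 - τ : ℝ) : ℂ) * v := by
    have h1 : e q = e x + (τ : ℂ) * v := by rw [← hz]; ring
    rw [hex', h1]
    push_cast
    ring
  refine ⟨?_, ε / 2 - τ, by linarith, heq⟩
  refine Cont.move e q e q 1 x' (ε / 2 - τ) (Cont.refl e q he hqe) hx's (by linarith) heq ?_
  have hxB : e x' ∈ Metric.ball (e x) ε := by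
    rw [hex']
    exact hmem
  exact ((convex_ball (e x) ε).segment_subset hqB hxB).trans hball

private theorem kfan_ne_one {A : AffineSurface X} {D : X → ℂ} (hD : FanField A D) {v : ℂ}
    (hv : ‖v‖ = 1) {e : OpenPartialHomeomorph X ℂ} (he : e ∈ A.atlas) {z : ℂ} {ε : ℝ} (hε : 0 < ε)
    (hball : Metric.ball z ε ⊆ e.target) {m' q : X} (hm's : m' ∈ e.source)
    (hem' : e m' = z + ((ε / 2 : ℝ) : ℂ) * v) (hqe : q ∈ e.source) (hqb : ‖e q - z‖ < ε / 4)
    (hDq : D q = v) {τ : ℝ} (hτ : 0 < τ) (heq : e m' = e q + (τ : ℂ) * v)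
    (h : Cont A v e m' e q 1) : False := by
  have hv0 : v ≠ 0 := fun h0 => by rw [h0, norm_zero] at hv; exact zero_ne_one hv
  have hvne : v ≠ -v := fun h0 => by
    have h1 : v + v = 0 := by nth_rewrite 2 [h0]; ring
    have h2 : (2 : ℂ) * v = 0 := by rw [two_mul]; exact h1
    rcases mul_eq_zero.1 h2 with h3 | h3
    · norm_num at h3
    · exact hv0 h3
  have hW : {q1 : X | D q1 ≠ -v} ∩ (e.source ∩ e ⁻¹' Metric.ball z (ε / 2)) ∈ 𝓝 q := by
    refine inter_mem ?_ (inter_mem (e.open_source.mem_nhds hqe) ?_)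
    · have h1 : IsOpen {q1 : X | D q1 ≠ -v} := isOpen_ne_fun hD.cont continuous_const
      refine h1.mem_nhds ?_
      show D q ≠ -v
      rw [hDq]
      exact hvne
    · refine (e.continuousAt hqe).preimage_mem_nhds (Metric.isOpen_ball.mem_nhds ?_)
      rw [Metric.mem_ball, dist_eq_norm]
      linarith
  have htr := cont_transport h _ hW
  -- the perturbation
  have hcurve : Tendsto (fun δ : ℝ => e.symm (e m' + (δ : ℂ) * Complex.I * v)) (𝓝 0) (𝓝 m') := by
    have h1 : ContinuousAt (fun δ : ℝ => e m' + (δ : ℂ) * Complex.I * v) 0 := by fun_prop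
    have h2 : Tendsto (fun δ : ℝ => e m' + (δ : ℂ) * Complex.I * v) (𝓝 0) (𝓝 (e m')) := by
      have := h1.tendsto
      simpa using this
    have h3 := e.symm.continuousAt (x := e m') (by simpa using e.map_source hm's)
    have h4 : e.symm (e m') = m' := e.left_inv hm's
    rw [ContinuousAt, h4] at h3
    exact h3.comp h2
  have hev : ∀ᶠ δ : ℝ in 𝓝[>] 0, (∃ q' ∈ {q1 : X | D q1 ≠ -v} ∩ (e.source ∩ e ⁻¹' Metric.ball z (ε / 2)),
      q' ∈ e.source ∧ Cont A v e (e.symm (e m' + (δ : ℂ) * Complex.I * v)) e q' 1 ∧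
      e q' = e q + ((1 : ℝ) : ℂ) * (e (e.symm (e m' + (δ : ℂ) * Complex.I * v)) - e m')) ∧
      0 < δ ∧ δ < ε / 2 := by
    refine ((hcurve.mono_left nhdsWithin_le_nhds).eventually htr).and ?_
    filter_upwards [Ioo_mem_nhdsGT (show (0 : ℝ) < ε / 2 by linarith)] with δ hδ
    exact hδ
  obtain ⟨δ, ⟨q', ⟨hq1, hq2, hq3⟩, -, hq5, hq6⟩, hδ0, hδ1⟩ := hev.exists
  set m'' : X := e.symm (e m' + (δ : ℂ) * Complex.I * v) with hm''
  have hnδ : ‖(δ : ℂ) * Complex.I * v‖ = δ := by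
    rw [norm_mul, norm_mul, hv, Complex.norm_I, mul_one, mul_one, Complex.norm_real,
      Real.norm_of_nonneg hδ0.le]
  have hm''B : e m' + (δ : ℂ) * Complex.I * v ∈ Metric.ball z ε := by
    rw [Metric.mem_ball, dist_eq_norm]
    have h1 : e m' + (δ : ℂ) * Complex.I * v - z = ((ε / 2 : ℝ) : ℂ) * v + (δ : ℂ) * Complex.I * v := by
      rw [hem']; ring
    rw [h1]
    have h2 := norm_add_le (((ε / 2 : ℝ) : ℂ) * v) ((δ : ℂ) * Complex.I * v)
    rw [hnδ, norm_mul, hv, mul_one, Complex.norm_real, Real.norm_of_nonneg (by linarith)] at h2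
    linarith
  have hem'' : e m'' = e m' + (δ : ℂ) * Complex.I * v := e.right_inv (hball hm''B)
  have hm''s : m'' ∈ e.source := e.map_target (hball hm''B)
  have heq' : e q' = e q + (δ : ℂ) * Complex.I * v := by
    rw [hq6, hem'']
    push_cast
    ring
  have hq3' : e q' ∈ Metric.ball z (ε / 2) := hq3
  have hq'B : e q' ∈ Metric.ball z ε := Metric.ball_subset_ball (by linarith) hq3'
  have hqB : e q ∈ Metric.ball z ε := by
    rw [Metric.mem_ball, dist_eq_norm]
    linarith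
  have hDq' : D q' ≠ v := by
    intro h0
    have h1 := fan_line hD hv he hqe hq2
      (((convex_ball z ε).segment_subset hqB hq'B).trans hball) hDq h0
    have h2 : (e q' - e q) * (starRingEnd ℂ) v = (δ : ℂ) * Complex.I := by
      rw [heq', add_sub_cancel_left, mul_assoc, kfan_cv hv, mul_one]
    rw [h2] at h1
    simp at h1
    linarith
  have him : (D q' * (starRingEnd ℂ) v).im ≠ 0 := by
    intro h0
    have h1 := kfan_real hv h0
    have h2 := congrArg norm h1
    rw [hD.norm q', norm_mul, hv, mul_one, Complex.norm_real, Real.norm_eq_abs] at h2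
    rcases (abs_eq (zero_le_one' ℝ)).1 h2.symm with h3 | h3
    · rw [h3] at h1
      exact hDq' (by rw [h1]; simp)
    · rw [h3] at h1
      exact hq1 (by rw [h1]; simp)
  have hseg : e m'' = e q' + (τ : ℂ) * v := by
    rw [hem'', heq', heq]
    ring
  have h1 := fan_seg hD hv he hq2 hm''s
    (by rw [hem'']; exact ((convex_ball z ε).segment_subset hq'B hm''B).trans hball) hτ hseg him
  have h2 := fan_weak hD hv ⟨e, e, 1, hq5⟩
  linarith

private theorem kfan_loop [CompactSpace X] [T2Space X] {A : AffineSurface X} {D : X → ℂ}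
    (hD : FanField A D) {v : ℂ} (hv : ‖v‖ = 1) (hs : ∀ s ∈ A.sing, D s ≠ v) {x : X} (hx : D x = v) :
    ∃ y ∈ closure {r | Reach A v x r}, D y = v ∧ ClosedHyp A v y := by
  have hKc : IsClosed {z : X | D z = v} := isClosed_eq hD.cont continuous_const
  obtain ⟨SS, hSS⟩ : ∃ SS : Set (Set X), SS = {M | IsClosed M ∧ M.Nonempty ∧ M ⊆ {z : X | D z = v} ∧
      ∀ m ∈ M, ∀ r, Reach A v m r → r ∈ M} := ⟨_, rfl⟩
  have hray : ∀ z, D z = v → closure {r | Reach A v z r} ∈ SS := by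
    intro z hz
    rw [hSS]
    refine ⟨isClosed_closure, ⟨z, subset_closure (Reach.refl (fun h => hs z h hz))⟩, ?_, ?_⟩
    · refine hKc.closure_subset_iff.2 ?_
      intro r hr
      exact fan_persist hD hv hr hz
    · intro m hm r hr
      exact closure_inv hm hr
  obtain ⟨M, hMx, hMmin⟩ := zorn_superset_nonempty SS (by
    intro c hc hchain hne
    refine ⟨⋂₀ c, ?_, fun s hs => sInter_subset_of_mem hs⟩
    rw [hSS]
    have hcl : ∀ U ∈ c, IsClosed U := fun U hU => by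
      have := hc hU
      rw [hSS] at this
      exact this.1
    refine ⟨isClosed_sInter hcl, ?_, ?_, ?_⟩
    · have := hne.to_subtype
      refine IsCompact.nonempty_sInter_of_directed_nonempty_isCompact_isClosed ?_ ?_
        (fun U hU => (hcl U hU).isCompact) hcl
      · intro U hU W hW
        rcases hchain.total hU hW with h | h
        · exact ⟨U, hU, Subset.rfl, h⟩
        · exact ⟨W, hW, h, Subset.rfl⟩
      · intro U hU
        have := hc hU
        rw [hSS] at this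
        exact this.2.1
    · obtain ⟨U, hU⟩ := hne
      have := hc hU
      rw [hSS] at this
      exact (sInter_subset_of_mem hU).trans this.2.2.1
    · intro m hm r hr U hU
      have := hc hU
      rw [hSS] at this
      exact this.2.2.2 m (hm U hU) r hr) _ (hray x hx)
  have hM := hMmin.prop
  rw [hSS] at hM
  obtain ⟨hMc, ⟨m, hm⟩, hMK, hMi⟩ := hM
  have hDm : D m = v := hMK hm
  obtain ⟨e, he, ε, hε, hball, m', hm's, hem', hDm', hmm', V, hV, hVq⟩ := kfan_ls hD hv hs hDm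
  have hm'M : m' ∈ M := hMi m hm m' hmm'
  have hsub : closure {r | Reach A v m' r} ⊆ M := hMc.closure_subset_iff.2 fun r hr => hMi m' hm'M r hr
  have hsup : M ⊆ closure {r | Reach A v m' r} := hMmin.le_of_le (hray m' hDm') hsub
  obtain ⟨q, hqV, hq⟩ := mem_closure_iff_nhds.1 (hsup hm) V hV
  obtain ⟨hqe, hqb, hq2⟩ := hVq q hqV
  have hq' : Reach A v m' q := hq
  have hDq : D q = v := fan_persist hD hv hq' hDm'
  obtain ⟨hc1, τ, hτ, heq⟩ := hq2 hDq
  obtain ⟨e1, e2, l, hc⟩ := hq'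
  obtain ⟨l1, hc2⟩ := hc.start he hm's
  obtain ⟨l2, hc3⟩ := hc2.finish he hqe
  refine ⟨m', hMx hm'M, hDm', e, 1 * l2, ?_, hc3.comp hc1⟩
  intro h1
  rw [one_mul] at h1
  rw [h1] at hc3
  exact kfan_ne_one hD hv he hε hball hm's hem' hqe hqb hDq hτ heq hc3

theorem kfan [CompactSpace X] [T2Space X] {A : AffineSurface X} {D : X → ℂ}
    (hD : FanField A D) {v : ℂ} (hv : ‖v‖ = 1) (hs : ∀ s ∈ A.sing, D s ≠ v) :
    ∃ F : Set X, F.Finite ∧ (∀ y ∈ F, ClosedHyp A v y) ∧
      ∀ p, D p = v → ∃ y ∈ F, {q | Reach A v y q} ⊆ closure {q | Reach A v p q} := by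
  classical
  have hKc : IsClosed {z : X | D z = v} := isClosed_eq hD.cont continuous_const
  have hex : ∀ x : X, x ∈ {z : X | D z = v} → ∃ (y : X) (V : Set X), V ∈ 𝓝 x ∧ ClosedHyp A v y ∧
      ∀ q ∈ V, D q = v → {r | Reach A v y r} ⊆ closure {r | Reach A v q r} := by
    intro x hx
    obtain ⟨e, he, ε, hε, hball, x', hx's, hex', hDx', hxx', V, hV, hVq⟩ := kfan_ls hD hv hs hx
    obtain ⟨y, hy, hDy, hcy⟩ := kfan_loop hD hv hs hDx'
    refine ⟨y, V, hV, hcy, fun q hq hDq r hr => ?_⟩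
    have h1 : r ∈ closure {r | Reach A v x' r} := closure_inv hy hr
    have h2 : Reach A v q x' := ⟨e, e, 1, ((hVq q hq).2.2 hDq).1⟩
    exact closure_mono (fun s hs => Reach.trans h2 hs) h1
  choose! y V hV hy hq using hex
  obtain ⟨t, ht, hcov⟩ := hKc.isCompact.elim_nhds_subcover V hV
  refine ⟨y '' (t : Set X), t.finite_toSet.image y, ?_, ?_⟩
  · rintro _ ⟨x, hx, rfl⟩
    exact hy x (ht x hx)
  · intro p hp
    obtain ⟨x, hx, hpx⟩ := mem_iUnion₂.1 (hcov hp)
    exact ⟨y x, ⟨x, hx, rfl⟩, hq x (ht x hx) p hpx hp⟩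

end Pool.Agent.H56.FF
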