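import Pool.Agent.H56.FF.Defs
import Pool.Agent.H56.AS.Mono

/-! Radiant surfaces have a fan field. -/

namespace Pool.Agent.H56.FF

open Set Filter Topology
open Pool.Agent.H56.AS

variable {X : Type*} [TopologicalSpace X]

theorem dirData_fan {A : AffineSurface X} {R : RadData A} {D : X → ℂ} (hD : DirData A R D) :
    FanField A D := by
  refine ⟨hD.cont, hD.norm, ?_, ?_⟩
  · intro e he p hp q hq _ v t hv ht h
    have hvv : v * (starRingEnd ℂ) v = 1 := by rw [Complex.mul_conj', hv]; simp
    have zp := hD.chart e he p hp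
    have zq := hD.chart e he q hq
    have np := R.ne e he p hp
    have nq := R.ne e he q hq
    have hzz : e q - R.o e = (e p - R.o e) + (t : ℂ) * v := by rw [h]; ring
    by_cases him : (D p * (starRingEnd ℂ) v).im = 0
    · -- radial case
      have hw : D p * (starRingEnd ℂ) v = (((D p * (starRingEnd ℂ) v).re : ℝ) : ℂ) := by
        apply Complex.ext
        · simp
        · simpa using him
      set r : ℝ := (D p * (starRingEnd ℂ) v).re with hr
      have hDp : D p = (r : ℂ) * v := by
        rw [← hw, mul_assoc, mul_comm _ v, hvv, mul_one]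
      have hr1 : |r| = 1 := by
        have h1 := congrArg norm hDp
        rw [norm_mul, hD.norm, hv, mul_one, Complex.norm_real, Real.norm_eq_abs] at h1
        exact h1.symm
      have hbq : -1 ≤ (D q * (starRingEnd ℂ) v).re := by
        have h1 : |(D q * (starRingEnd ℂ) v).re| ≤ ‖D q * (starRingEnd ℂ) v‖ :=
          Complex.abs_re_le_norm _
        rw [norm_mul, hD.norm, RCLike.norm_conj, hv, one_mul] at h1
        exact (abs_le.1 h1).1
      rcases (abs_eq (by norm_num : (0 : ℝ) ≤ 1)).1 hr1 with h1 | h1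
      · have hq1 : e q - R.o e = ((‖e p - R.o e‖ + t : ℝ) : ℂ) * v := by
          rw [hzz]
          conv_lhs => rw [zp, hDp, h1]
          push_cast
          ring
        have hpos : 0 < ‖e p - R.o e‖ + t := by positivity
        have hn : ‖e q - R.o e‖ = ‖e p - R.o e‖ + t := by
          rw [hq1, norm_mul, hv, mul_one, Complex.norm_real, Real.norm_eq_abs, abs_of_pos hpos]
        have hDq : D q = v := by
          rw [hn] at zq
          rw [hq1] at zq
          have hne : ((‖e p - R.o e‖ + t : ℝ) : ℂ) ≠ 0 := by exact_mod_cast hpos.ne'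
          exact (mul_left_cancel₀ hne zq).symm
        rw [hDq, hvv, h1]
        simp
      · rw [h1]; exact hbq
    · exact (mono_key3 hv ht hzz np nq (hD.norm p) (hD.norm q) zp zq him).1.le
  · intro U hU ⟨p0, hp0⟩
    -- a regular point of U
    obtain ⟨p, hpU, hps⟩ : ∃ p ∈ U, p ∉ A.sing := by
      by_cases h : p0 ∈ A.sing
      · obtain ⟨k, hk, c, hc1, hc2, hc3, hc4⟩ := A.cone p0 h
        have h0 : (0 : ℂ) ∈ c.target := by rw [← hc2]; exact c.map_source hc1
        have hsym : Tendsto c.symm (𝓝[≠] (0 : ℂ)) (𝓝 p0) := by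
          have h1 := (c.symm.continuousAt (x := 0) (by simpa using h0)).tendsto
          have h2 : c.symm 0 = p0 := by rw [← hc2]; exact c.left_inv hc1
          rw [h2] at h1
          exact h1.mono_left nhdsWithin_le_nhds
        have e1 : ∀ᶠ z in 𝓝[≠] (0 : ℂ), c.symm z ∈ U := hsym (hU.mem_nhds hp0)
        have e2 : ∀ᶠ z in 𝓝[≠] (0 : ℂ), z ∈ c.target :=
          mem_nhdsWithin_of_mem_nhds (c.open_target.mem_nhds h0)
        obtain ⟨z, ⟨hz1, hz2⟩, hz3⟩ := ((e1.and e2).and self_mem_nhdsWithin).exists
        refine ⟨c.symm z, hz1, hc3 _ (c.map_target hz2) ?_⟩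
        intro heq
        have : z = 0 := by rw [← c.right_inv hz2, heq, hc2]
        exact hz3 this
      · exact ⟨p0, hp0, h⟩
    obtain ⟨e, he, hpe⟩ := A.cover p hps
    by_contra hcon
    push Not at hcon
    have zp := hD.chart e he p hpe
    have np := R.ne e he p hpe
    -- move in the direction i * D p
    have hcur : Tendsto (fun t : ℝ => e.symm (e p + (t : ℂ) * (Complex.I * D p))) (𝓝[>] 0)
        (𝓝 p) := by
      have h1 : Tendsto (fun t : ℝ => e p + (t : ℂ) * (Complex.I * D p)) (𝓝 0) (𝓝 (e p)) := by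
        have : Continuous (fun t : ℝ => e p + (t : ℂ) * (Complex.I * D p)) := by fun_prop
        have h2 := this.tendsto 0
        simpa using h2
      have h2 : Tendsto e.symm (𝓝 (e p)) (𝓝 p) := by
        have h3 := (e.symm.continuousAt (x := e p) (by simpa using e.map_source hpe)).tendsto
        rwa [e.left_inv hpe] at h3
      exact (h2.comp h1).mono_left nhdsWithin_le_nhds
    have hct : ∀ᶠ t : ℝ in 𝓝[>] 0, e p + (t : ℂ) * (Complex.I * D p) ∈ e.target := by
      have h1 : Tendsto (fun t : ℝ => e p + (t : ℂ) * (Complex.I * D p)) (𝓝 0) (𝓝 (e p)) := by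
        have : Continuous (fun t : ℝ => e p + (t : ℂ) * (Complex.I * D p)) := by fun_prop
        have h2 := this.tendsto 0
        simpa using h2
      exact (h1.mono_left nhdsWithin_le_nhds) (e.open_target.mem_nhds (e.map_source hpe))
    have hcU : ∀ᶠ t : ℝ in 𝓝[>] 0, e.symm (e p + (t : ℂ) * (Complex.I * D p)) ∈ U :=
      hcur (hU.mem_nhds hpU)
    obtain ⟨t, ⟨ht1, ht2⟩, ht0⟩ := ((hct.and hcU).and self_mem_nhdsWithin).exists
    have ht0' : 0 < t := ht0
    set q := e.symm (e p + (t : ℂ) * (Complex.I * D p)) with hq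
    have hqe : q ∈ e.source := e.map_target ht1
    have heq : e q = e p + (t : ℂ) * (Complex.I * D p) := e.right_inv ht1
    have hDD : D p = D q := hcon p hpU q ht2
    have zq := hD.chart e he q hqe
    have hDn : D p ≠ 0 := by
      intro h0
      have := hD.norm p
      rw [h0, norm_zero] at this
      exact zero_ne_one this
    have hz : ((‖e p - R.o e‖ : ℝ) : ℂ) * D p + (t : ℂ) * (Complex.I * D p) =
        ((‖e q - R.o e‖ : ℝ) : ℂ) * D p := by
      rw [← zp]
      conv_rhs => rw [hDD, ← zq, heq]
      ring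
    have hz2 : ((‖e p - R.o e‖ : ℝ) : ℂ) + (t : ℂ) * Complex.I = ((‖e q - R.o e‖ : ℝ) : ℂ) := by
      apply mul_right_cancel₀ hDn
      rw [← hz]
      ring
    have := congrArg Complex.im hz2
    simp at this
    linarith

theorem radiant_fan (A : AffineSurface X) (h : Radiant A) : ∃ D : X → ℂ, FanField A D := by
  obtain ⟨R⟩ := h
  obtain ⟨D, hD⟩ := exists_dir A R
  exact ⟨D, dirData_fan hD⟩

end Pool.Agent.H56.FF
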