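import Pool.Agent.H56.FF.Defs
import Pool.Agent.H56.AS.Basic

/-! Strict turning. -/

namespace Pool.Agent.H56.FF

open Set Filter Topology
open Pool.Agent.H56.AS

variable {X : Type*} [TopologicalSpace X]

private theorem st_mul_conj {v : ℂ} (hv : ‖v‖ = 1) : v * (starRingEnd ℂ) v = 1 := by
  rw [Complex.mul_conj, Complex.normSq_eq_norm_sq, hv]
  norm_num

private theorem st_norm {v z : ℂ} (hv : ‖v‖ = 1) (hz : ‖z‖ = 1) : ‖z * (starRingEnd ℂ) v‖ = 1 := by
  rw [norm_mul, hz, Complex.norm_conj, hv, one_mul]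

private theorem st_sq {z : ℂ} (hz : ‖z‖ = 1) : z.re ^ 2 + z.im ^ 2 = 1 := by
  have h := Complex.sq_norm z
  rw [Complex.normSq_apply, hz] at h
  nlinarith

private theorem st_one {z : ℂ} (hz : ‖z‖ = 1) (h : 1 ≤ z.re) : z = 1 := by
  have h1 := st_sq hz
  have h2 : z.re = 1 := by
    have h3 : z.re ≤ 1 := by rw [← hz]; exact Complex.re_le_norm z
    exact le_antisymm h3 h
  rw [h2] at h1
  have h4 : z.im = 0 := by
    have h5 : z.im ^ 2 = 0 := by linarith
    exact pow_eq_zero_iff (two_ne_zero) |>.1 h5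
  exact Complex.ext h2 h4

private theorem st_cancel {v z w : ℂ} (hv : ‖v‖ = 1) (h : z * (starRingEnd ℂ) v = w) : z = w * v := by
  rw [← h, mul_assoc, mul_comm ((starRingEnd ℂ) v) v, st_mul_conj hv, mul_one]

theorem fan_weak {A : AffineSurface X} {D : X → ℂ} (hD : FanField A D) {v : ℂ} (hv : ‖v‖ = 1)
    {p q : X} (h : Reach A v p q) :
    (D p * (starRingEnd ℂ) v).re ≤ (D q * (starRingEnd ℂ) v).re := by
  obtain ⟨e, e', l, hc⟩ := h
  induction hc with
  | refl he hp => exact le_rfl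
  | move e' q l r t h hr ht hqr hs ih =>
    have hf := h.facts
    exact ih.trans (hD.turn e' hf.2.2.1 q hf.2.2.2.1 r hr hs v t hv ht hqr)
  | change e' q l e'' a b h he hq ha hab ih => exact ih

private theorem st_end {A : AffineSurface X} {D : X → ℂ} (hD : FanField A D) {v : ℂ} (hv : ‖v‖ = 1)
    {p q : X} (h : (D p * (starRingEnd ℂ) v).re ≤ (D q * (starRingEnd ℂ) v).re) (hp : D p = v) :
    D q = v := by
  rw [hp, st_mul_conj hv, Complex.one_re] at h
  have h1 := st_one (st_norm hv (hD.norm q)) h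
  rw [st_cancel hv h1, one_mul]

theorem fan_persist {A : AffineSurface X} {D : X → ℂ} (hD : FanField A D) {v : ℂ} (hv : ‖v‖ = 1)
    {p q : X} (h : Reach A v p q) (hp : D p = v) : D q = v :=
  st_end hD hv (fan_weak hD hv h) hp

/-- the direction is constant along the segment if the turning is not strict -/
private theorem st_const {A : AffineSurface X} {D : X → ℂ} (hD : FanField A D) {v : ℂ}
    (hv : ‖v‖ = 1) {e : OpenPartialHomeomorph X ℂ} (he : e ∈ A.atlas) {p q : X}
    (hp : p ∈ e.source) (hq : q ∈ e.source) (hs : segment ℝ (e p) (e q) ⊆ e.target) {t : ℝ}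
    (ht : 0 < t) (h : e q = e p + (t : ℂ) * v)
    (hle : (D q * (starRingEnd ℂ) v).re ≤ (D p * (starRingEnd ℂ) v).re) :
    ∀ s ∈ Icc (0 : ℝ) t, e p + (s : ℂ) * v ∈ e.target ∧ D (e.symm (e p + (s : ℂ) * v)) = D p := by
  have hseg : ∀ s ∈ Icc (0 : ℝ) t, ∀ s' ∈ Icc (0 : ℝ) t,
      segment ℝ (e p + (s : ℂ) * v) (e p + (s' : ℂ) * v) ⊆ segment ℝ (e p) (e q) := by
    have hmem : ∀ s ∈ Icc (0 : ℝ) t, e p + (s : ℂ) * v ∈ segment ℝ (e p) (e q) := by
      intro s hs'
      rw [segment_eq_image']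
      refine ⟨s / t, ⟨div_nonneg hs'.1 ht.le, (div_le_one ht).2 hs'.2⟩, ?_⟩
      show e p + (s / t : ℝ) • (e q - e p) = _
      rw [h, add_sub_cancel_left, Complex.real_smul, ← mul_assoc, ← Complex.ofReal_mul,
        div_mul_cancel₀ s ht.ne']
    intro s hs' s' hs''
    exact (convex_segment (𝕜 := ℝ) (e p) (e q)).segment_subset (hmem s hs') (hmem s' hs'')
  have htar : ∀ s ∈ Icc (0 : ℝ) t, e p + (s : ℂ) * v ∈ e.target := fun s hs' =>
    hs (hseg s hs' s hs' (left_mem_segment ℝ _ _))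
  have h0 : e p + ((0 : ℝ) : ℂ) * v = e p := by simp
  -- the real part is constant
  have hturn : ∀ s ∈ Icc (0 : ℝ) t, ∀ s' ∈ Icc (0 : ℝ) t, s ≤ s' →
      (D (e.symm (e p + (s : ℂ) * v)) * (starRingEnd ℂ) v).re ≤
        (D (e.symm (e p + (s' : ℂ) * v)) * (starRingEnd ℂ) v).re := by
    intro s hs1 s' hs2 hss
    rcases hss.eq_or_lt with h1 | h1
    · rw [h1]
    · refine hD.turn e he _ (e.map_target (htar s hs1)) _ (e.map_target (htar s' hs2)) ?_ v (s' - s)
        hv (sub_pos.2 h1) ?_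
      · rw [e.right_inv (htar s hs1), e.right_inv (htar s' hs2)]
        exact (hseg s hs1 s' hs2).trans hs
      · rw [e.right_inv (htar s hs1), e.right_inv (htar s' hs2)]
        push_cast
        ring
  have hsp : e.symm (e p + ((0 : ℝ) : ℂ) * v) = p := by rw [h0, e.left_inv hp]
  have hsq : e.symm (e p + (t : ℂ) * v) = q := by rw [← h, e.left_inv hq]
  have hre : ∀ s ∈ Icc (0 : ℝ) t, (D (e.symm (e p + (s : ℂ) * v)) * (starRingEnd ℂ) v).re =
      (D p * (starRingEnd ℂ) v).re := by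
    intro s hs'
    have h1 := hturn 0 ⟨le_rfl, ht.le⟩ s hs' hs'.1
    have h2 := hturn s hs' t ⟨ht.le, le_rfl⟩ hs'.2
    rw [hsp] at h1
    rw [hsq] at h2
    exact le_antisymm (h2.trans hle) h1
  -- continuity
  have hcont : ContinuousOn (fun s : ℝ => D (e.symm (e p + (s : ℂ) * v)) * (starRingEnd ℂ) v)
      (Icc 0 t) := by
    refine ContinuousOn.mul ?_ continuousOn_const
    refine hD.cont.comp_continuousOn ?_
    refine e.continuousOn_symm.comp ?_ (fun s hs' => htar s hs')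
    exact Continuous.continuousOn (by fun_prop)
  have hfin : (({⟨(D p * (starRingEnd ℂ) v).re, (D p * (starRingEnd ℂ) v).im⟩,
      ⟨(D p * (starRingEnd ℂ) v).re, -(D p * (starRingEnd ℂ) v).im⟩} : Set ℂ)).Finite :=
    Set.toFinite _
  intro s hs'
  refine ⟨htar s hs', ?_⟩
  have hmaps : MapsTo (fun s : ℝ => D (e.symm (e p + (s : ℂ) * v)) * (starRingEnd ℂ) v)
      (Icc 0 t) ({⟨(D p * (starRingEnd ℂ) v).re, (D p * (starRingEnd ℂ) v).im⟩,
      ⟨(D p * (starRingEnd ℂ) v).re, -(D p * (starRingEnd ℂ) v).im⟩} : Set ℂ) := by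
    intro s hs1
    have h1 := st_sq (st_norm hv (hD.norm (e.symm (e p + (s : ℂ) * v))))
    have h2 := st_sq (st_norm hv (hD.norm p))
    rw [hre s hs1] at h1
    have h3 : (D (e.symm (e p + (s : ℂ) * v)) * (starRingEnd ℂ) v).im ^ 2 =
        (D p * (starRingEnd ℂ) v).im ^ 2 := by linarith
    rcases sq_eq_sq_iff_eq_or_eq_neg.1 h3 with h4 | h4
    · left
      exact Complex.ext (hre s hs1) h4
    · right
      exact Complex.ext (hre s hs1) h4
  have h1 := (isPreconnected_Icc (a := (0 : ℝ)) (b := t)).constant_of_mapsTo hfin.isDiscrete hcont hmaps hs'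
    (⟨le_rfl, ht.le⟩ : (0 : ℝ) ∈ Icc 0 t)
  have h2 : D (e.symm (e p + (s : ℂ) * v)) * (starRingEnd ℂ) v = D p * (starRingEnd ℂ) v := by
    have h3 : D (e.symm (e p + (s : ℂ) * v)) * (starRingEnd ℂ) v =
      D (e.symm (e p + ((0 : ℝ) : ℂ) * v)) * (starRingEnd ℂ) v := h1
    rw [h3, hsp]
  rw [st_cancel hv h2, mul_assoc, mul_comm ((starRingEnd ℂ) v) v, st_mul_conj hv, mul_one]

theorem fan_seg {A : AffineSurface X} {D : X → ℂ} (hD : FanField A D) {v : ℂ} (hv : ‖v‖ = 1)
    {e : OpenPartialHomeomorph X ℂ} (he : e ∈ A.atlas) {p q : X} (hp : p ∈ e.source)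
    (hq : q ∈ e.source) (hs : segment ℝ (e p) (e q) ⊆ e.target) {t : ℝ} (ht : 0 < t)
    (h : e q = e p + (t : ℂ) * v) (him : (D p * (starRingEnd ℂ) v).im ≠ 0) :
    (D p * (starRingEnd ℂ) v).re < (D q * (starRingEnd ℂ) v).re := by
  by_contra hcon
  have hconst := st_const hD hv he hp hq hs ht h (not_lt.1 hcon)
  set u := D p with hu
  set b := (u * (starRingEnd ℂ) v).im with hb
  set a := (u * (starRingEnd ℂ) v).re with ha
  have hun : ‖u‖ = 1 := hD.norm p
  -- the centre
  have hm : t / 2 ∈ Icc (0 : ℝ) t := ⟨by linarith, by linarith⟩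
  obtain ⟨ρ, hρ, hball⟩ := Metric.isOpen_iff.1 e.open_target _ (hconst _ hm).1
  set z₀ := e p + ((t / 2 : ℝ) : ℂ) * v with hz₀
  obtain ⟨η, hη, hη1, hη2⟩ : ∃ η : ℝ, 0 < η ∧ 2 * η ≤ ρ ∧ η ≤ t / 2 :=
    ⟨min (ρ / 2) (t / 2), lt_min (by linarith) (by linarith),
      by have := min_le_left (ρ / 2) (t / 2); linarith, min_le_right _ _⟩
  -- points near the segment
  have hnear : ∀ s τ : ℝ, |s - t / 2| < η → 0 < τ → τ < η →
      e p + (s : ℂ) * v + (τ : ℂ) * u ∈ e.target ∧
        D (e.symm (e p + (s : ℂ) * v + (τ : ℂ) * u)) = u := by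
    intro s τ h1 h2 h3
    have h4 := abs_lt.1 h1
    have hsI : s ∈ Icc (0 : ℝ) t := ⟨by linarith [h4.1], by linarith [h4.2]⟩
    obtain ⟨h5, h6⟩ := hconst s hsI
    have h7 : e p + (s : ℂ) * v ∈ Metric.ball z₀ ρ := by
      rw [mem_ball_iff_norm, hz₀]
      have h8 : e p + (s : ℂ) * v - (e p + ((t / 2 : ℝ) : ℂ) * v) = ((s - t / 2 : ℝ) : ℂ) * v := by
        push_cast
        ring
      rw [h8, norm_mul, hv, mul_one, Complex.norm_real, Real.norm_eq_abs]
      linarith
    have h9 : e p + (s : ℂ) * v + (τ : ℂ) * u ∈ Metric.ball z₀ ρ := by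
      rw [mem_ball_iff_norm, hz₀]
      have h8 : e p + (s : ℂ) * v + (τ : ℂ) * u - (e p + ((t / 2 : ℝ) : ℂ) * v) =
          ((s - t / 2 : ℝ) : ℂ) * v + (τ : ℂ) * u := by
        push_cast
        ring
      rw [h8]
      refine (norm_add_le _ _).trans_lt ?_
      rw [norm_mul, norm_mul, hv, hun, mul_one, mul_one, Complex.norm_real, Complex.norm_real,
        Real.norm_eq_abs, Real.norm_eq_abs, abs_of_pos h2]
      linarith
    refine ⟨hball h9, ?_⟩
    have h10 := hD.turn e he _ (e.map_target h5) _ (e.map_target (hball h9)) (by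
      rw [e.right_inv h5, e.right_inv (hball h9)]
      exact ((convex_ball z₀ ρ).segment_subset h7 h9).trans hball) u τ hun h2 (by
      rw [e.right_inv h5, e.right_inv (hball h9)])
    exact st_end hD hun h10 h6
  -- the open set
  have hopen : IsOpen {w : ℂ | |((w - e p) * (starRingEnd ℂ) v).re -
      ((w - e p) * (starRingEnd ℂ) v).im / b * a - t / 2| < η ∧
      0 < ((w - e p) * (starRingEnd ℂ) v).im / b ∧ ((w - e p) * (starRingEnd ℂ) v).im / b < η} := by
    have hc1 : Continuous fun w : ℂ => ((w - e p) * (starRingEnd ℂ) v).im / b :=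
      (Complex.continuous_im.comp ((continuous_id.sub continuous_const).mul
        continuous_const)).div_const b
    have hc2 : Continuous fun w : ℂ => ((w - e p) * (starRingEnd ℂ) v).re :=
      Complex.continuous_re.comp ((continuous_id.sub continuous_const).mul continuous_const)
    have hc3 : Continuous fun w : ℂ => |((w - e p) * (starRingEnd ℂ) v).re -
      ((w - e p) * (starRingEnd ℂ) v).im / b * a - t / 2| :=
      ((hc2.sub (hc1.mul continuous_const)).sub continuous_const).abs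
    exact (isOpen_lt hc3 continuous_const).inter
      ((isOpen_lt continuous_const hc1).inter (isOpen_lt hc1 continuous_const))
  have huv : u * (starRingEnd ℂ) v = (a : ℂ) + (b : ℂ) * Complex.I := by
    rw [ha, hb]
    exact (Complex.re_add_im _).symm
  have hue : u = ((a : ℂ) + (b : ℂ) * Complex.I) * v := st_cancel hv huv
  obtain ⟨x, hx, y, hy, hxy⟩ := hD.nonconst _ (e.isOpen_inter_preimage hopen) (by
    obtain ⟨h1, h2⟩ := hnear (t / 2) (η / 2) (by rw [sub_self, abs_zero]; exact hη) (by linarith)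
      (by linarith)
    refine ⟨e.symm (e p + ((t / 2 : ℝ) : ℂ) * v + ((η / 2 : ℝ) : ℂ) * u), e.map_target h1, ?_⟩
    rw [Set.mem_preimage, e.right_inv h1]
    have h3 : (e p + ((t / 2 : ℝ) : ℂ) * v + ((η / 2 : ℝ) : ℂ) * u - e p) * (starRingEnd ℂ) v =
        ((t / 2 + η / 2 * a : ℝ) : ℂ) + ((η / 2 * b : ℝ) : ℂ) * Complex.I := by
      have h4 : (e p + ((t / 2 : ℝ) : ℂ) * v + ((η / 2 : ℝ) : ℂ) * u - e p) * (starRingEnd ℂ) v =
        ((t / 2 : ℝ) : ℂ) * (v * (starRingEnd ℂ) v) + ((η / 2 : ℝ) : ℂ) *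
          (u * (starRingEnd ℂ) v) := by ring
      rw [h4, huv, st_mul_conj hv]
      push_cast
      ring
    have h5 : ((e p + ((t / 2 : ℝ) : ℂ) * v + ((η / 2 : ℝ) : ℂ) * u - e p) *
        (starRingEnd ℂ) v).re = t / 2 + η / 2 * a := by
      rw [h3]
      simp
    have h6 : ((e p + ((t / 2 : ℝ) : ℂ) * v + ((η / 2 : ℝ) : ℂ) * u - e p) *
        (starRingEnd ℂ) v).im / b = η / 2 := by
      rw [h3]
      have h7 : (((t / 2 + η / 2 * a : ℝ) : ℂ) + ((η / 2 * b : ℝ) : ℂ) * Complex.I).im =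
        η / 2 * b := by simp
      rw [h7, mul_div_cancel_right₀ _ him]
    show |_| < η ∧ 0 < _ ∧ _ < η
    rw [h5, h6]
    refine ⟨?_, by linarith, by linarith⟩
    have h8 : t / 2 + η / 2 * a - η / 2 * a - t / 2 = 0 := by ring
    rw [h8, abs_zero]
    exact hη)
  have hval : ∀ x, x ∈ e.source ∩ e ⁻¹' {w : ℂ | |((w - e p) * (starRingEnd ℂ) v).re -
      ((w - e p) * (starRingEnd ℂ) v).im / b * a - t / 2| < η ∧
      0 < ((w - e p) * (starRingEnd ℂ) v).im / b ∧ ((w - e p) * (starRingEnd ℂ) v).im / b < η} →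
      D x = u := by
    rintro x ⟨hx1, hx2, hx3, hx4⟩
    have h1 := (hnear _ _ hx2 hx3 hx4).2
    have h2 : e p + ((((e x - e p) * (starRingEnd ℂ) v).re -
        ((e x - e p) * (starRingEnd ℂ) v).im / b * a : ℝ) : ℂ) * v +
        ((((e x - e p) * (starRingEnd ℂ) v).im / b : ℝ) : ℂ) * u = e x := by
      have h3 : e x - e p = ((((e x - e p) * (starRingEnd ℂ) v).re : ℂ) +
          (((e x - e p) * (starRingEnd ℂ) v).im : ℂ) * Complex.I) * v :=
        st_cancel hv (Complex.re_add_im _).symm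
      set R := ((e x - e p) * (starRingEnd ℂ) v).re
      set J := ((e x - e p) * (starRingEnd ℂ) v).im
      have h4 : (b : ℂ) ≠ 0 := Complex.ofReal_ne_zero.2 him
      have h5 : ((R - J / b * a : ℝ) : ℂ) * v + ((J / b : ℝ) : ℂ) * u = e x - e p := by
        rw [h3, hue]
        push_cast
        field_simp
        ring
      rw [add_assoc, h5]
      ring
    rw [h2, e.left_inv hx1] at h1
    exact h1
  exact hxy ((hval x hx).trans (hval y hy).symm)

theorem fan_strict {A : AffineSurface X} {D : X → ℂ} (hD : FanField A D) {v : ℂ} (hv : ‖v‖ = 1)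
    {p q : X} (h : Reach A v p q) (him : (D p * (starRingEnd ℂ) v).im ≠ 0) :
    p = q ∨ (D p * (starRingEnd ℂ) v).re < (D q * (starRingEnd ℂ) v).re := by
  obtain ⟨e, e', l, hc⟩ := h
  induction hc with
  | refl he hp => exact Or.inl rfl
  | move e' q l r t h hr ht hqr hs ih =>
    have hf := h.facts
    right
    rcases ih with h1 | h1
    · subst h1
      exact fan_seg hD hv hf.2.2.1 hf.2.2.2.1 hr hs ht hqr him
    · exact h1.trans_le (hD.turn e' hf.2.2.1 q hf.2.2.2.1 r hr hs v t hv ht hqr)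
  | change e' q l e'' a b h he hq ha hab ih => exact ih

theorem fan_line {A : AffineSurface X} {D : X → ℂ} (hD : FanField A D) {v : ℂ} (hv : ‖v‖ = 1)
    {e : OpenPartialHomeomorph X ℂ} (he : e ∈ A.atlas) {x q : X} (hx : x ∈ e.source)
    (hq : q ∈ e.source) (hs : segment ℝ (e x) (e q) ⊆ e.target) (hDx : D x = v) (hDq : D q = v) :
    ((e q - e x) * (starRingEnd ℂ) v).im = 0 := by
  by_contra him
  have hz : e q - e x ≠ 0 := by
    intro h
    apply him
    rw [h, zero_mul, Complex.zero_im]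
  have ht : 0 < ‖e q - e x‖ := norm_pos_iff.2 hz
  have htc : (‖e q - e x‖ : ℂ) ≠ 0 := Complex.ofReal_ne_zero.2 ht.ne'
  have hv' : ‖(e q - e x) / (‖e q - e x‖ : ℂ)‖ = 1 := by
    rw [norm_div, Complex.norm_real, norm_norm, div_self ht.ne']
  have h1 := fan_seg hD hv' he hx hq hs ht (by
    rw [mul_div_cancel₀ _ htc]
    ring) (by
    intro h2
    apply him
    rw [hDx, map_div₀, Complex.conj_ofReal, ← mul_div_assoc, Complex.div_ofReal_im,
      div_eq_zero_iff] at h2
    rcases h2 with h2 | h2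
    · have h3 : ((e q - e x) * (starRingEnd ℂ) v).im =
        -(v * (starRingEnd ℂ) (e q - e x)).im := by
        simp only [Complex.mul_im, Complex.conj_re, Complex.conj_im]
        ring
      rw [h3, h2, neg_zero]
    · exact absurd h2 ht.ne')
  rw [hDx, hDq] at h1
  exact lt_irrefl _ h1

end Pool.Agent.H56.FF
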